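import Pool.Agent.H946R3.Hall.Disk

open MeasureTheory InnerProductGeometry
open scoped Real ENNReal ComplexConjugate

namespace Pool.Agent.H946R3.Hall

/-- The shapes with all angles at most `φ`. -/
def A (φ : ℝ) : Set ℂ :=
  {σ | angle (1 : ℂ) σ ≤ φ ∧ angle (-1 : ℂ) (σ - 1) ≤ φ ∧ angle (-σ) (1 - σ) ≤ φ}

lemma inner_eq (w z : ℂ) : inner ℝ w z = w.re * z.re + w.im * z.im := by
  rw [Complex.inner]
  simp [Complex.mul_re]
  ring

lemma cos_le_aux {φ : ℝ} (h1 : φ ≤ π) {x y : ℂ} (h : angle x y ≤ φ) :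
    Real.cos φ * (‖x‖ * ‖y‖) ≤ x.re * y.re + x.im * y.im := by
  rw [← inner_eq, ← cos_angle_mul_norm_mul_norm]
  apply mul_le_mul_of_nonneg_right _ (by positivity)
  exact Real.cos_le_cos_of_nonneg_of_le_pi (angle_nonneg _ _) h1 h

lemma loc_sqrt {y : ℝ} (hy : 0 ≤ y) (yq1 : 3 / 4 - 27 / 10 ^ 5 ≤ y ^ 2)
    (yq2 : y ^ 2 ≤ 3 / 4 + 38 / 10 ^ 5) : |y - √3 / 2| ≤ 30 / 10 ^ 5 := by
  have h3 := sq_sqrt3
  have h3' : 1.7 < √3 := by
    rw [Real.lt_sqrt (by norm_num)]; norm_num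
  have hy1 : 0.8 ≤ y := by
    have : (0.8 : ℝ) ^ 2 ≤ y ^ 2 := by norm_num at *; linarith
    exact (pow_le_pow_iff_left₀ (by norm_num) hy (by norm_num)).1 this
  have hp : (y - √3 / 2) * (y + √3 / 2) = y ^ 2 - 3 / 4 := by
    linear_combination (-1 / 4 : ℝ) * h3
  have hpos : (1.6 : ℝ) ≤ y + √3 / 2 := by linarith
  have key : |y - √3 / 2| * 1.6 ≤ 38 / 10 ^ 5 := by
    calc |y - √3 / 2| * 1.6 ≤ |y - √3 / 2| * |y + √3 / 2| :=
          mul_le_mul_of_nonneg_left (hpos.trans (le_abs_self _)) (abs_nonneg _)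
      _ = |y ^ 2 - 3 / 4| := by rw [← abs_mul, hp]
      _ ≤ _ := by rw [abs_le]; constructor <;> linarith
  norm_num at *
  linarith

lemma loc_ab {a b κ : ℝ} (hκ : κ = 1 / 2 - 1 / 10 ^ 5) (k1 : κ * (1 + b) ≤ a)
    (k2 : κ * (1 + a) ≤ b) (k3 : κ * (a + b) ≤ 1) :
    1 - 5 / 10 ^ 5 ≤ a ∧ 1 - 5 / 10 ^ 5 ≤ b ∧ a ≤ 1 + 10 / 10 ^ 5 ∧ b ≤ 1 + 10 / 10 ^ 5 := by
  subst hκ
  norm_num at *
  refine ⟨?_, ?_, ?_, ?_⟩ <;> linarith

lemma loc_sq {a : ℝ} (a1 : 1 - 5 / 10 ^ 5 ≤ a) (a2 : a ≤ 1 + 10 / 10 ^ 5) :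
    1 - 10 / 10 ^ 5 ≤ a ^ 2 ∧ a ^ 2 ≤ 1 + 21 / 10 ^ 5 := by
  have h0 : (0 : ℝ) ≤ 1 - 5 / 10 ^ 5 := by norm_num
  have e1 := pow_le_pow_left₀ h0 a1 2
  have e2 := pow_le_pow_left₀ (h0.trans a1) a2 2
  norm_num at *
  constructor <;> linarith

lemma loc_sq' {a : ℝ} (a1 : 1 / 2 - 16 / 10 ^ 5 ≤ a) (a2 : a ≤ 1 / 2 + 16 / 10 ^ 5) :
    1 / 4 - 17 / 10 ^ 5 ≤ a ^ 2 ∧ a ^ 2 ≤ 1 / 4 + 17 / 10 ^ 5 := by
  have h0 : (0 : ℝ) ≤ 1 / 2 - 16 / 10 ^ 5 := by norm_num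
  have e1 := pow_le_pow_left₀ h0 a1 2
  have e2 := pow_le_pow_left₀ (h0.trans a1) a2 2
  norm_num at *
  constructor <;> linarith

/-- Numerical localisation. -/
lemma localise {x y a b κ : ℝ} (ha : 0 < a) (hb : 0 < b) (hκ : 1 / 2 - 1 / 10 ^ 5 ≤ κ)
    (hasq : a ^ 2 = x ^ 2 + y ^ 2) (hbsq : b ^ 2 = (x - 1) ^ 2 + y ^ 2)
    (h1 : κ * a ≤ x) (h2 : κ * b ≤ 1 - x) (h3 : κ * (a * b) ≤ a ^ 2 - x) (hy : 0 ≤ y) :
    |x - 1 / 2| + |y - √3 / 2| ≤ 1 / 2000 := by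
  obtain ⟨κ0, hκ0⟩ : ∃ κ0 : ℝ, κ0 = 1 / 2 - 1 / 10 ^ 5 := ⟨_, rfl⟩
  rw [← hκ0] at hκ
  have g1 : κ0 * a ≤ x := (mul_le_mul_of_nonneg_right hκ ha.le).trans h1
  have g2 : κ0 * b ≤ 1 - x := (mul_le_mul_of_nonneg_right hκ hb.le).trans h2
  have g3 : κ0 * (a * b) ≤ a ^ 2 - x :=
    (mul_le_mul_of_nonneg_right hκ (by positivity)).trans h3
  have k1 : κ0 * (1 + b) ≤ a := by
    have : a * (κ0 * (1 + b)) ≤ a * a := by
      have e : a * (κ0 * (1 + b)) = κ0 * a + κ0 * (a * b) := by ring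
      rw [e, ← sq]
      linarith
    exact le_of_mul_le_mul_left this ha
  have k2 : κ0 * (1 + a) ≤ b := by
    have : b * (κ0 * (1 + a)) ≤ b * b := by
      have e : b * (κ0 * (1 + a)) = κ0 * b + κ0 * (a * b) := by ring
      have e2 : (x - 1) ^ 2 = x ^ 2 - 2 * x + 1 := by ring
      rw [e, ← sq, hbsq, e2]
      linarith
    exact le_of_mul_le_mul_left this hb
  have k3 : κ0 * (a + b) ≤ 1 := by rw [mul_add]; linarith
  obtain ⟨a1, b1, a2, b2⟩ := loc_ab hκ0 k1 k2 k3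
  obtain ⟨aq1, aq2⟩ := loc_sq a1 a2
  obtain ⟨bq1, bq2⟩ := loc_sq b1 b2
  clear k1 k2 k3 g1 g2 g3 hκ h1 h2 h3 a1 a2 b1 b2 hκ0
  have x1 : x = (a ^ 2 - b ^ 2 + 1) / 2 := by rw [hasq, hbsq]; ring
  have x2 : 1 / 2 - 16 / 10 ^ 5 ≤ x := by rw [x1]; linarith
  have x3 : x ≤ 1 / 2 + 16 / 10 ^ 5 := by rw [x1]; linarith
  obtain ⟨xq1, xq2⟩ := loc_sq' x2 x3
  have yq1 : 3 / 4 - 27 / 10 ^ 5 ≤ y ^ 2 := by linarith
  have yq2 : y ^ 2 ≤ 3 / 4 + 38 / 10 ^ 5 := by linarith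
  have hy2 := loc_sqrt hy yq1 yq2
  have hx2 : |x - 1 / 2| ≤ 16 / 10 ^ 5 := by
    rw [abs_le]; constructor <;> linarith
  calc |x - 1 / 2| + |y - √3 / 2| ≤ 16 / 10 ^ 5 + 30 / 10 ^ 5 := add_le_add hx2 hy2
    _ ≤ 1 / 2000 := by norm_num

lemma A_near {φ : ℝ} (h1 : φ < π / 2) (h2 : 1 / 2 - 1 / 10 ^ 5 ≤ Real.cos φ) {σ : ℂ}
    (hσ : σ ∈ A φ) : ‖σ - s0‖ ≤ 1 / 2000 ∨ ‖conj σ - s0‖ ≤ 1 / 2000 := by
  obtain ⟨q1, q2, q3⟩ := hσ
  have hπ := Real.pi_pos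
  have n0 : σ ≠ 0 := by
    rintro rfl
    rw [angle_zero_right] at q1
    linarith
  have n1 : σ - 1 ≠ 0 := by
    intro h
    rw [h, angle_zero_right] at q2
    linarith
  have c1 := cos_le_aux (by linarith) q1
  have c2 := cos_le_aux (by linarith) q2
  have c3 := cos_le_aux (by linarith) q3
  have ha : 0 < ‖σ‖ := norm_pos_iff.2 n0
  have hb : 0 < ‖σ - 1‖ := norm_pos_iff.2 n1
  have hasq : ‖σ‖ ^ 2 = σ.re ^ 2 + σ.im ^ 2 := by
    rw [← Complex.normSq_eq_norm_sq, Complex.normSq_apply]; ring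
  have hbsq : ‖σ - 1‖ ^ 2 = (σ.re - 1) ^ 2 + σ.im ^ 2 := by
    rw [← Complex.normSq_eq_norm_sq, Complex.normSq_apply]
    simp
    ring
  have c1' : Real.cos φ * ‖σ‖ ≤ σ.re := by simpa using c1
  have c2' : Real.cos φ * ‖σ - 1‖ ≤ 1 - σ.re := by
    have : Real.cos φ * (‖(-1 : ℂ)‖ * ‖σ - 1‖) = Real.cos φ * ‖σ - 1‖ := by simp
    rw [this] at c2
    simp at c2
    linarith
  have c3' : Real.cos φ * (‖σ‖ * ‖σ - 1‖) ≤ ‖σ‖ ^ 2 - σ.re := by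
    rw [norm_neg, norm_sub_rev] at c3
    simp at c3
    rw [hasq]
    nlinarith
  have bound : ∀ z : ℂ, |z.re - 1 / 2| + |z.im - √3 / 2| ≤ 1 / 2000 → ‖z - s0‖ ≤ 1 / 2000 := by
    intro z hz
    refine (Complex.norm_le_abs_re_add_abs_im _).trans ?_
    exact hz
  rcases le_total 0 σ.im with hy | hy
  · left
    apply bound
    exact localise ha hb h2 hasq hbsq c1' c2' c3' hy
  · right
    apply bound
    rw [Complex.conj_re, Complex.conj_im]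
    exact localise ha hb h2 (by rw [hasq]; ring) (by rw [hbsq]; ring) c1' c2' c3' (by linarith)

lemma angle_eq_aux {x y : ℂ} (hx : ‖x‖ = 1) (hy : ‖y‖ = 1)
    (h : x.re * y.re + x.im * y.im = 1 / 2) : angle x y = π / 3 := by
  have hπ := Real.pi_pos
  unfold angle
  rw [hx, hy, inner_eq, h]
  norm_num
  rw [← Real.cos_pi_div_three]
  exact Real.arccos_cos (by positivity) (by linarith)

lemma A_nhds {φ : ℝ} (h : π / 3 < φ) : A φ ∈ nhds s0 := by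
  have h3 := sq_sqrt3
  have hre : s0.re = 1 / 2 := rfl
  have him : s0.im = √3 / 2 := rfl
  have z1 : s0 - 1 = s0 * s0 := s0_sq.symm
  have n1 : ‖s0 - 1‖ = 1 := by rw [z1, norm_mul, norm_s0, one_mul]
  have n1' : ‖1 - s0‖ = 1 := by rw [norm_sub_rev, n1]
  have a1 : angle (1 : ℂ) s0 = π / 3 := by
    apply angle_eq_aux (by simp) norm_s0
    rw [hre]; simp
  have a2 : angle (-1 : ℂ) (s0 - 1) = π / 3 := by
    apply angle_eq_aux (by simp) n1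
    simp [hre]; norm_num
  have a3 : angle (-s0) (1 - s0) = π / 3 := by
    apply angle_eq_aux (by rw [norm_neg, norm_s0]) n1'
    simp [hre, him]
    nlinarith
  have hs : s0 ≠ 0 := by
    intro h; have := norm_s0; rw [h] at this; simp at this
  have hs1 : s0 - 1 ≠ 0 := by
    intro h; rw [h] at n1; simp at n1
  have hs1' : 1 - s0 ≠ 0 := by
    intro h; rw [h] at n1'; simp at n1'
  have t1 : ContinuousAt (fun σ : ℂ => angle (1 : ℂ) σ) s0 :=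
    ContinuousAt.comp (f := fun σ : ℂ => ((1 : ℂ), σ)) (g := fun p : ℂ × ℂ => angle p.1 p.2)
      (continuousAt_angle (x := ((1 : ℂ), s0)) one_ne_zero hs) (by fun_prop)
  have t2 : ContinuousAt (fun σ : ℂ => angle (-1 : ℂ) (σ - 1)) s0 :=
    ContinuousAt.comp (f := fun σ : ℂ => ((-1 : ℂ), σ - 1)) (g := fun p : ℂ × ℂ => angle p.1 p.2)
      (continuousAt_angle (x := ((-1 : ℂ), s0 - 1)) (by simp) hs1) (by fun_prop)
  have t3 : ContinuousAt (fun σ : ℂ => angle (-σ) (1 - σ)) s0 :=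
    ContinuousAt.comp (f := fun σ : ℂ => (-σ, 1 - σ)) (g := fun p : ℂ × ℂ => angle p.1 p.2)
      (continuousAt_angle (x := (-s0, 1 - s0)) (neg_ne_zero.2 hs) hs1') (by fun_prop)
  have r1 := t1.eventually_lt_const (u := φ) (by simp only [a1]; exact h)
  have r2 := t2.eventually_lt_const (u := φ) (by simp only [a2]; exact h)
  have r3 := t3.eventually_lt_const (u := φ) (by simp only [a3]; exact h)
  filter_upwards [r1, r2, r3] with σ g1 g2 g3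
  exact ⟨g1.le, g2.le, g3.le⟩

lemma measurable_angle {α : Type*} [MeasurableSpace α] {f g : α → ℂ} (hf : Measurable f)
    (hg : Measurable g) : Measurable (fun a => angle (f a) (g a)) := by
  unfold angle
  refine Real.measurable_arccos.comp ?_
  fun_prop

lemma measurableSet_A (φ : ℝ) : MeasurableSet (A φ) := by
  have h1 : Measurable (fun σ : ℂ => angle (1 : ℂ) σ) := measurable_angle (by fun_prop) (by fun_prop)
  have h2 : Measurable (fun σ : ℂ => angle (-1 : ℂ) (σ - 1)) :=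
    measurable_angle (by fun_prop) (by fun_prop)
  have h3 : Measurable (fun σ : ℂ => angle (-σ) (1 - σ)) :=
    measurable_angle (by fun_prop) (by fun_prop)
  exact (measurableSet_le h1 measurable_const).inter
    ((measurableSet_le h2 measurable_const).inter (measurableSet_le h3 measurable_const))

end Pool.Agent.H946R3.Hall
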