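import Mathlib

open MeasureTheory
open scoped Real ENNReal

namespace Pool.Agent.H946R3.Hall

/-- polar coordinates, iterated form. -/
lemma lintegral_polar (f : ℂ → ℝ≥0∞) (hf : Measurable f) :
    ∫⁻ z, f z = ∫⁻ θ in Set.Ioo (-π) π, ∫⁻ r in Set.Ioi (0 : ℝ),
      ENNReal.ofReal r * f ((r : ℂ) * (Real.cos θ + Real.sin θ * Complex.I)) := by
  rw [← Complex.lintegral_comp_polarCoord_symm]
  have h1 : (volume : Measure (ℝ × ℝ)).restrict polarCoord.target
      = (volume.restrict (Set.Ioi (0 : ℝ))).prod (volume.restrict (Set.Ioo (-π) π)) := by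
    rw [Measure.prod_restrict]
    rfl
  rw [h1, lintegral_prod_symm]
  · simp only [smul_eq_mul, Complex.polarCoord_symm_apply]
  · refine Measurable.aemeasurable ?_
    simp only [smul_eq_mul, Complex.polarCoord_symm_apply]
    refine Measurable.mul (by fun_prop) ?_
    exact hf.comp (by fun_prop)

/-- Multiplication by `v` scales the Lebesgue measure of the plane by `‖v‖²`. -/
lemma lintegral_mul_left {v : ℂ} (hv : v ≠ 0) (f : ℂ → ℝ≥0∞) (hf : Measurable f) :
    ∫⁻ z, f z = ENNReal.ofReal (‖v‖ ^ 2) * ∫⁻ z, f (v * z) := by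
  have hdet : LinearMap.det (LinearMap.mulLeft ℝ v) = ‖v‖ ^ 2 := by
    have h := Algebra.norm_complex_apply v
    rw [Algebra.norm_apply] at h
    rw [← Complex.normSq_eq_norm_sq, ← h]
    rfl
  have hv2 : (0 : ℝ) < ‖v‖ ^ 2 := by positivity
  have hne : LinearMap.det (LinearMap.mulLeft ℝ v) ≠ 0 := by rw [hdet]; exact hv2.ne'
  have hmap := Measure.map_linearMap_addHaar_eq_smul_addHaar (volume : Measure ℂ) hne
  have h2 : ∫⁻ z, f (v * z) = ∫⁻ z, f z ∂(Measure.map (LinearMap.mulLeft ℝ v) volume) := by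
    rw [lintegral_map hf]
    · rfl
    · have : Measurable (fun z : ℂ => v * z) := by fun_prop
      exact this
  rw [h2, hmap, lintegral_smul_measure, hdet, smul_eq_mul, ← mul_assoc, ← ENNReal.ofReal_mul hv2.le,
    abs_of_pos (by positivity), mul_inv_cancel₀ hv2.ne', ENNReal.ofReal_one, one_mul]

/-- The configurations `(v, X)` with `X, X + v, X + v σ` all in `S`. -/
def W (S : Set ℂ) (σ : ℂ) : Set (ℂ × ℂ) :=
  {p | p.2 ∈ S ∧ p.2 + p.1 ∈ S ∧ p.2 + p.1 * σ ∈ S}

lemma measurableSet_W {S : Set ℂ} (hS : MeasurableSet S) (σ : ℂ) : MeasurableSet (W S σ) := by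
  have h1 : Measurable (fun p : ℂ × ℂ => p.2) := measurable_snd
  have h2 : Measurable (fun p : ℂ × ℂ => p.2 + p.1) := by fun_prop
  have h3 : Measurable (fun p : ℂ × ℂ => p.2 + p.1 * σ) := by fun_prop
  exact (h1 hS).inter ((h2 hS).inter (h3 hS))

/-- The shape density at `σ`. -/
noncomputable def K (S : Set ℂ) (σ : ℂ) : ℝ≥0∞ :=
  ∫⁻ p in W S σ, ENNReal.ofReal (‖p.1‖ ^ 2)

lemma K_scale_aux (t : ℝ) (ht : 0 < t) (B : Set (ℂ × ℂ)) (hB : MeasurableSet B) :
    ∫⁻ p in (fun p : ℂ × ℂ => t⁻¹ • p) ⁻¹' B, ENNReal.ofReal (‖p.1‖ ^ 2)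
      = ENNReal.ofReal (t ^ 6) * ∫⁻ p in B, ENNReal.ofReal (‖p.1‖ ^ 2) := by
  have hti : t⁻¹ ≠ 0 := by positivity
  have hmeas : Measurable (fun p : ℂ × ℂ => t⁻¹ • p) := by fun_prop
  have hhaar : (volume : Measure (ℂ × ℂ)).IsAddHaarMeasure := by
    rw [Measure.volume_eq_prod]; infer_instance
  have hmap := Measure.map_addHaar_smul (volume : Measure (ℂ × ℂ)) hti
  have hfr : Module.finrank ℝ (ℂ × ℂ) = 4 := by
    rw [Module.finrank_prod, Complex.finrank_real_complex]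
  rw [hfr] at hmap
  have e1 : ∫⁻ p in (fun p : ℂ × ℂ => t⁻¹ • p) ⁻¹' B, ENNReal.ofReal (‖p.1‖ ^ 2)
      = ∫⁻ p, (B.indicator (fun p => ENNReal.ofReal (t ^ 2) * ENNReal.ofReal (‖p.1‖ ^ 2)))
          (t⁻¹ • p) := by
    rw [← lintegral_indicator (hmeas hB)]
    congr 1
    ext p
    by_cases hp : t⁻¹ • p ∈ B
    · rw [Set.indicator_of_mem (show p ∈ (fun p : ℂ × ℂ => t⁻¹ • p) ⁻¹' B from hp),
        Set.indicator_of_mem hp, ← ENNReal.ofReal_mul (by positivity)]
      congr 1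
      rw [Prod.smul_fst, norm_smul, Real.norm_eq_abs, abs_of_pos (by positivity)]
      field_simp
    · rw [Set.indicator_of_notMem (show p ∉ (fun p : ℂ × ℂ => t⁻¹ • p) ⁻¹' B from hp),
        Set.indicator_of_notMem hp]
  have hfm : Measurable (B.indicator
      (fun p : ℂ × ℂ => ENNReal.ofReal (t ^ 2) * ENNReal.ofReal (‖p.1‖ ^ 2))) := by
    refine Measurable.indicator ?_ hB
    fun_prop
  rw [e1, ← lintegral_map (μ := volume) hfm hmeas]
  have hmap' : Measure.map (fun p : ℂ × ℂ => t⁻¹ • p) volume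
      = ENNReal.ofReal |((t⁻¹ ^ 4)⁻¹)| • (volume : Measure (ℂ × ℂ)) := hmap
  rw [hmap', lintegral_smul_measure, lintegral_indicator hB, lintegral_const_mul _ (by fun_prop),
    smul_eq_mul, ← mul_assoc, ← ENNReal.ofReal_mul (abs_nonneg _), abs_of_pos (by positivity)]
  congr 2
  field_simp

end Pool.Agent.H946R3.Hall
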