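import Pool.Agent.H946R3.Hall.Basic

open MeasureTheory
open scoped Real ENNReal

namespace Pool.Agent.H946R3.Hall

/-- The primitive sixth root of unity. -/
noncomputable def s0 : ℂ := ⟨1 / 2, √3 / 2⟩

lemma sq_sqrt3 : √3 * √3 = 3 := Real.mul_self_sqrt (by norm_num)

lemma s0_sq : s0 * s0 = s0 - 1 := by
  have h := sq_sqrt3
  apply Complex.ext
  · simp [s0]
    nlinarith
  · simp [s0]
    ring

lemma norm_s0 : ‖s0‖ = 1 := by
  rw [Complex.norm_def, Real.sqrt_eq_one, Complex.normSq_apply]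
  have h := sq_sqrt3
  have h1 : s0.re = 1 / 2 := rfl
  have h2 : s0.im = √3 / 2 := rfl
  rw [h1, h2]
  nlinarith

/-- The closed unit disk. -/
def Dk : Set ℂ := Metric.closedBall 0 1

lemma mem_Dk (z : ℂ) : z ∈ Dk ↔ ‖z‖ ≤ 1 := by
  unfold Dk; rw [mem_closedBall_zero_iff]

lemma measurable_Dk : MeasurableSet Dk := Metric.isClosed_closedBall.measurableSet

lemma W_disk_subset {σ : ℂ} {η : ℝ} (h0 : 0 ≤ η) (hσ : ‖σ - s0‖ ≤ η) :
    W Dk σ ⊆ (fun p : ℂ × ℂ => (1 + 2 * η)⁻¹ • p) ⁻¹' (W Dk s0) := by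
  rintro ⟨v, X⟩ ⟨h1, h2, h3⟩
  simp only [mem_Dk] at h1 h2 h3
  have hv : ‖v‖ ≤ 2 := by
    have : ‖v‖ ≤ ‖X + v‖ + ‖X‖ := by
      have := norm_sub_le (X + v) X
      simpa using this
    linarith
  have h4 : ‖X + v * s0‖ ≤ 1 + 2 * η := by
    have e : X + v * s0 = (X + v * σ) - v * (σ - s0) := by ring
    rw [e]
    refine (norm_sub_le _ _).trans ?_
    rw [norm_mul]
    have : ‖v‖ * ‖σ - s0‖ ≤ 2 * η := mul_le_mul hv hσ (norm_nonneg _) (by norm_num)
    linarith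
  have ht : (0 : ℝ) < 1 + 2 * η := by linarith
  have key : ∀ z : ℂ, ‖z‖ ≤ 1 + 2 * η → ‖(1 + 2 * η)⁻¹ • z‖ ≤ 1 := by
    intro z hz
    rw [norm_smul, Real.norm_eq_abs, abs_of_pos (by positivity), inv_mul_le_iff₀ ht]
    linarith
  refine ⟨?_, ?_, ?_⟩
  · rw [mem_Dk]
    exact key X (by linarith)
  · rw [mem_Dk]
    have : (1 + 2 * η)⁻¹ • X + (1 + 2 * η)⁻¹ • v = (1 + 2 * η)⁻¹ • (X + v) := by
      rw [smul_add]
    change ‖(1 + 2 * η)⁻¹ • X + (1 + 2 * η)⁻¹ • v‖ ≤ 1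
    rw [this]
    exact key _ (by linarith)
  · rw [mem_Dk]
    have : (1 + 2 * η)⁻¹ • X + ((1 + 2 * η)⁻¹ • v) * s0 = (1 + 2 * η)⁻¹ • (X + v * s0) := by
      rw [smul_add, smul_mul_assoc]
    change ‖(1 + 2 * η)⁻¹ • X + ((1 + 2 * η)⁻¹ • v) * s0‖ ≤ 1
    rw [this]
    exact key _ h4

lemma K_disk_near {σ : ℂ} {η : ℝ} (h0 : 0 ≤ η) (hσ : ‖σ - s0‖ ≤ η) :
    K Dk σ ≤ ENNReal.ofReal ((1 + 2 * η) ^ 6) * K Dk s0 := by
  unfold K
  rw [← K_scale_aux (1 + 2 * η) (by linarith) (W Dk s0) (measurableSet_W measurable_Dk s0)]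
  exact lintegral_mono_set (W_disk_subset h0 hσ)

/-- Radial integral. -/
lemma radial (k : ℕ) {r0 : ℝ} (h : 0 ≤ r0) :
    ∫⁻ r in Set.Ioi (0 : ℝ), (if r ≤ r0 then ENNReal.ofReal (r ^ k) else 0)
      = ENNReal.ofReal (r0 ^ (k + 1) / (k + 1)) := by
  have e1 : ∫⁻ r in Set.Ioi (0 : ℝ), (if r ≤ r0 then ENNReal.ofReal (r ^ k) else 0)
      = ∫⁻ r in Set.Ioc (0 : ℝ) r0, ENNReal.ofReal (r ^ k) := by
    rw [← lintegral_indicator measurableSet_Ioi, ← lintegral_indicator measurableSet_Ioc]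
    congr 1
    ext r
    by_cases h1 : 0 < r <;> by_cases h2 : r ≤ r0 <;> simp [Set.indicator, h1, h2]
  rw [e1, ← ofReal_integral_eq_lintegral_ofReal]
  · congr 1
    rw [← intervalIntegral.integral_of_le h, integral_pow]
    simp
  · exact (intervalIntegral.intervalIntegrable_pow k).1
  · filter_upwards [ae_restrict_mem measurableSet_Ioc] with r hr
    exact pow_nonneg hr.1.le _

lemma norm_polar {r θ : ℝ} (hr : 0 ≤ r) :
    ‖(r : ℂ) * (Real.cos θ + Real.sin θ * Complex.I)‖ = r := by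
  rw [norm_mul, Complex.norm_real, Real.norm_eq_abs, abs_of_nonneg hr]
  have : ‖(Real.cos θ : ℂ) + Real.sin θ * Complex.I‖ = 1 := by
    have := Complex.norm_exp_ofReal_mul_I θ
    rw [Complex.exp_mul_I, ← Complex.ofReal_cos, ← Complex.ofReal_sin] at this
    exact this
  rw [this, mul_one]

/-- The fourth moment of the disk. -/
lemma disk_moment : ∫⁻ X in Dk, ENNReal.ofReal (‖X‖ ^ 4) = ENNReal.ofReal (π / 3) := by
  rw [← lintegral_indicator measurable_Dk, lintegral_polar _ (by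
    refine Measurable.indicator ?_ measurable_Dk
    fun_prop)]
  have e1 : ∀ θ : ℝ, ∫⁻ r in Set.Ioi (0 : ℝ), ENNReal.ofReal r *
      (Dk.indicator (fun X : ℂ => ENNReal.ofReal (‖X‖ ^ 4))
        ((r : ℂ) * (Real.cos θ + Real.sin θ * Complex.I))) = ENNReal.ofReal (1 / 6) := by
    intro θ
    have h := radial 5 (r0 := 1) zero_le_one
    norm_num at h
    rw [← h]
    apply setLIntegral_congr_fun measurableSet_Ioi
    intro r hr
    have hr0 : (0 : ℝ) ≤ r := le_of_lt hr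
    simp only
    by_cases h1 : r ≤ 1
    · rw [Set.indicator_of_mem (by rw [mem_Dk, norm_polar hr0]; exact h1), if_pos h1,
        norm_polar hr0, ← ENNReal.ofReal_mul hr0]
      congr 1
      ring
    · rw [Set.indicator_of_notMem (by rw [mem_Dk, norm_polar hr0]; exact h1), if_neg h1, mul_zero]
  simp_rw [e1]
  rw [setLIntegral_const, Real.volume_Ioo, ← ENNReal.ofReal_mul (by norm_num)]
  congr 1
  ring

/-- The lens. -/
def Lens : Set ℂ := {w | ‖1 - w‖ ≤ 1 ∧ ‖1 - w * s0‖ ≤ 1}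

lemma measurable_Lens : MeasurableSet Lens := by
  have h1 : IsClosed {w : ℂ | ‖1 - w‖ ≤ 1} := isClosed_le (by fun_prop) continuous_const
  have h2 : IsClosed {w : ℂ | ‖1 - w * s0‖ ≤ 1} := isClosed_le (by fun_prop) continuous_const
  exact (h1.inter h2).measurableSet

lemma lens_polar {r θ : ℝ} (hr : 0 < r)
    (h : (r : ℂ) * (Real.cos θ + Real.sin θ * Complex.I) ∈ Lens) :
    r ≤ 2 * Real.cos θ ∧ r ≤ 2 * Real.cos (θ + π / 3) := by
  have hcs := Real.cos_sq_add_sin_sq θ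
  have h3 := sq_sqrt3
  rw [Real.cos_add, Real.cos_pi_div_three, Real.sin_pi_div_three]
  generalize Real.cos θ = c at *
  generalize Real.sin θ = s at *
  obtain ⟨h1, h2⟩ := h
  constructor
  · have : ‖1 - (r : ℂ) * (c + s * Complex.I)‖ ^ 2 ≤ 1 := by
      have := mul_le_mul h1 h1 (norm_nonneg _) zero_le_one
      nlinarith
    rw [← Complex.normSq_eq_norm_sq, Complex.normSq_apply] at this
    simp at this
    have e : (1 - r * c) * (1 - r * c) + r * s * (r * s)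
      = 1 + r * (r * (c ^ 2 + s ^ 2) - 2 * c) := by ring
    rw [e, hcs] at this
    have h4 : r * (r - 2 * c) ≤ 0 := by linarith
    by_contra hc
    push Not at hc
    have : 0 < r * (r - 2 * c) := mul_pos hr (by linarith)
    linarith
  · have : ‖1 - (r : ℂ) * (c + s * Complex.I) * s0‖ ^ 2 ≤ 1 := by
      have := mul_le_mul h2 h2 (norm_nonneg _) zero_le_one
      nlinarith
    rw [← Complex.normSq_eq_norm_sq, Complex.normSq_apply] at this
    simp [s0] at this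
    have e : (1 - (r * c * 2⁻¹ - r * s * (√3 / 2))) * (1 - (r * c * 2⁻¹ - r * s * (√3 / 2))) +
      (-(r * s * 2⁻¹) + -(r * c * (√3 / 2))) * (-(r * s * 2⁻¹) + -(r * c * (√3 / 2)))
      = 1 + r * (r * (c ^ 2 + s ^ 2) - 2 * (c * (1 / 2) - s * (√3 / 2)))
        + (√3 * √3 - 3) * (r ^ 2 * (c ^ 2 + s ^ 2) / 4) := by ring
    rw [e, hcs, h3] at this
    have h4 : r * (r - 2 * (c * (1 / 2) - s * (√3 / 2))) ≤ 0 := by linarith
    by_contra hc
    push Not at hc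
    have h5 : 0 < r - 2 * (c * (1 / 2) - s * (√3 / 2)) := by linarith
    have : 0 < r * (r - 2 * (c * (1 / 2) - s * (√3 / 2))) :=
      mul_pos hr h5
    linarith

end Pool.Agent.H946R3.Hall
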