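import Pool.Agent.H946R3.Hall.Disk

open MeasureTheory
open scoped Real ENNReal

namespace Pool.Agent.H946R3.Hall

lemma integral_cos_four (a b : ℝ) :
    ∫ x in a..b, Real.cos x ^ 4 = (3 * b / 8 + Real.sin (2 * b) / 4 + Real.sin (4 * b) / 32)
      - (3 * a / 8 + Real.sin (2 * a) / 4 + Real.sin (4 * a) / 32) := by
  have hd : ∀ x ∈ Set.uIcc a b, HasDerivAt
      (fun x : ℝ => 3 * x / 8 + Real.sin (2 * x) / 4 + Real.sin (4 * x) / 32)
      (Real.cos x ^ 4) x := by
    intro x _
    have h1 : HasDerivAt (fun x : ℝ => 3 * x / 8) (3 / 8) x := by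
      have := ((hasDerivAt_id x).const_mul (3 : ℝ)).div_const 8
      simpa using this
    have h2 : HasDerivAt (fun x : ℝ => Real.sin (2 * x) / 4) (Real.cos (2 * x) * 2 / 4) x := by
      have h : HasDerivAt (fun x : ℝ => 2 * x) 2 x := by
        have := (hasDerivAt_id x).const_mul (2 : ℝ)
        simpa using this
      exact (h.sin).div_const 4
    have h3 : HasDerivAt (fun x : ℝ => Real.sin (4 * x) / 32) (Real.cos (4 * x) * 4 / 32) x := by
      have h : HasDerivAt (fun x : ℝ => 4 * x) 4 x := by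
        have := (hasDerivAt_id x).const_mul (4 : ℝ)
        simpa using this
      exact (h.sin).div_const 32
    have h4 := (h1.add h2).add h3
    have e : Real.cos x ^ 4 = 3 / 8 + Real.cos (2 * x) * 2 / 4 + Real.cos (4 * x) * 4 / 32 := by
      rw [show 4 * x = 2 * (2 * x) by ring, Real.cos_two_mul (2 * x), Real.cos_two_mul x]
      ring
    rw [e]
    exact h4
  rw [intervalIntegral.integral_eq_sub_of_hasDerivAt hd]
  apply Continuous.intervalIntegrable
  fun_prop

lemma int1 : ∫ x in (-(π / 2))..(-(π / 6)), 4 * Real.cos x ^ 4 = π / 2 - 9 * √3 / 16 := by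
  rw [intervalIntegral.integral_const_mul, integral_cos_four]
  have e1 : Real.sin (2 * -(π / 6)) = -(√3 / 2) := by
    rw [show 2 * -(π / 6) = -(π / 3) by ring, Real.sin_neg, Real.sin_pi_div_three]
  have e2 : Real.sin (4 * -(π / 6)) = -(√3 / 2) := by
    rw [show 4 * -(π / 6) = -(π - π / 3) by ring, Real.sin_neg, Real.sin_pi_sub,
      Real.sin_pi_div_three]
  have e3 : Real.sin (2 * -(π / 2)) = 0 := by
    rw [show 2 * -(π / 2) = -π by ring, Real.sin_neg, Real.sin_pi, neg_zero]
  have e4 : Real.sin (4 * -(π / 2)) = 0 := by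
    rw [show 4 * -(π / 2) = -(2 * π) by ring, Real.sin_neg, Real.sin_two_pi, neg_zero]
  rw [e1, e2, e3, e4]
  ring

lemma int2 : ∫ x in (-(π / 6))..(π / 6), 4 * Real.cos (x + π / 3) ^ 4 = π / 2 - 9 * √3 / 16 := by
  rw [intervalIntegral.integral_const_mul,
    intervalIntegral.integral_comp_add_right (fun x => Real.cos x ^ 4), integral_cos_four]
  have e1 : Real.sin (2 * (-(π / 6) + π / 3)) = √3 / 2 := by
    rw [show 2 * (-(π / 6) + π / 3) = π / 3 by ring, Real.sin_pi_div_three]
  have e2 : Real.sin (4 * (-(π / 6) + π / 3)) = √3 / 2 := by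
    rw [show 4 * (-(π / 6) + π / 3) = π - π / 3 by ring, Real.sin_pi_sub,
      Real.sin_pi_div_three]
  have e3 : Real.sin (2 * (π / 6 + π / 3)) = 0 := by
    rw [show 2 * (π / 6 + π / 3) = π by ring, Real.sin_pi]
  have e4 : Real.sin (4 * (π / 6 + π / 3)) = 0 := by
    rw [show 4 * (π / 6 + π / 3) = 2 * π by ring, Real.sin_two_pi]
  rw [e1, e2, e3, e4]
  ring

/-- The angular bound for the lens. -/
noncomputable def lensB (θ : ℝ) : ℝ≥0∞ :=
  (Set.Ioc (-(π / 2)) (-(π / 6))).indicator (fun θ => ENNReal.ofReal (4 * Real.cos θ ^ 4)) θ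
  + (Set.Ioc (-(π / 6)) (π / 6)).indicator
      (fun θ => ENNReal.ofReal (4 * Real.cos (θ + π / 3) ^ 4)) θ

lemma lens_radial_le {θ : ℝ} (hθ : θ ∈ Set.Ioo (-π) π) :
    ∫⁻ r in Set.Ioi (0 : ℝ), ENNReal.ofReal r * (Lens.indicator
      (fun w : ℂ => ENNReal.ofReal (‖w‖ ^ 2)) ((r : ℂ) * (Real.cos θ + Real.sin θ * Complex.I)))
      ≤ lensB θ := by
  have hπ := Real.pi_pos
  have gen : ∀ r0 : ℝ, 0 ≤ r0 → (∀ r : ℝ, 0 < r →
      (r : ℂ) * (Real.cos θ + Real.sin θ * Complex.I) ∈ Lens → r ≤ r0) →
      ∫⁻ r in Set.Ioi (0 : ℝ), ENNReal.ofReal r * (Lens.indicator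
      (fun w : ℂ => ENNReal.ofReal (‖w‖ ^ 2)) ((r : ℂ) * (Real.cos θ + Real.sin θ * Complex.I)))
      ≤ ENNReal.ofReal (r0 ^ 4 / 4) := by
    intro r0 hr0 hh
    have h := radial 3 hr0
    norm_num at h
    rw [← h]
    apply setLIntegral_mono' measurableSet_Ioi
    intro r hr
    have hr' : (0 : ℝ) < r := hr
    by_cases hL : (r : ℂ) * (Real.cos θ + Real.sin θ * Complex.I) ∈ Lens
    · rw [Set.indicator_of_mem hL, if_pos (hh r hr' hL), norm_polar hr'.le,
        ← ENNReal.ofReal_mul hr'.le]
      apply ENNReal.ofReal_le_ofReal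
      apply le_of_eq
      ring
    · rw [Set.indicator_of_notMem hL, mul_zero]
      exact bot_le
  unfold lensB
  by_cases hA : θ ∈ Set.Ioc (-(π / 2)) (-(π / 6))
  · rw [Set.indicator_of_mem hA]
    refine le_add_right ?_
    have hc : 0 ≤ Real.cos θ := by
      apply Real.cos_nonneg_of_mem_Icc
      exact ⟨by linarith [hA.1], by linarith [hA.2]⟩
    refine (gen (2 * Real.cos θ) (by positivity) (fun r hr hL => (lens_polar hr hL).1)).trans ?_
    apply ENNReal.ofReal_le_ofReal
    apply le_of_eq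
    ring
  · by_cases hB : θ ∈ Set.Ioc (-(π / 6)) (π / 6)
    · rw [Set.indicator_of_mem hB]
      refine le_add_left ?_
      have hc : 0 ≤ Real.cos (θ + π / 3) := by
        apply Real.cos_nonneg_of_mem_Icc
        exact ⟨by linarith [hB.1], by linarith [hB.2]⟩
      refine (gen (2 * Real.cos (θ + π / 3)) (by positivity)
        (fun r hr hL => (lens_polar hr hL).2)).trans ?_
      apply ENNReal.ofReal_le_ofReal
      apply le_of_eq
      ring
    · refine (gen 0 le_rfl ?_).trans (by simp)
      intro r hr hL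
      obtain ⟨h1, h2⟩ := lens_polar hr hL
      rcases le_or_gt θ (-(π / 2)) with h3 | h3
      · have : Real.cos θ ≤ 0 := by
          rw [← Real.cos_neg]
          apply Real.cos_nonpos_of_pi_div_two_le_of_le
          · linarith
          · linarith [hθ.1]
        linarith
      · have h4 : π / 6 < θ := by
          by_contra hc
          push Not at hc
          rcases le_or_gt θ (-(π / 6)) with h5 | h5
          · exact hA ⟨h3, h5⟩
          · exact hB ⟨h5, hc⟩
        have : Real.cos (θ + π / 3) ≤ 0 := by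
          apply Real.cos_nonpos_of_pi_div_two_le_of_le
          · linarith
          · linarith [hθ.2]
        linarith

/-- The second moment of the lens. -/
lemma lens_moment : ∫⁻ w in Lens, ENNReal.ofReal (‖w‖ ^ 2)
    ≤ ENNReal.ofReal (π - 9 * √3 / 8) := by
  have hπ := Real.pi_pos
  rw [← lintegral_indicator measurable_Lens, lintegral_polar _ (by
    refine Measurable.indicator ?_ measurable_Lens
    fun_prop)]
  have hm1 : Measurable ((Set.Ioc (-(π / 2)) (-(π / 6))).indicator
      (fun θ : ℝ => ENNReal.ofReal (4 * Real.cos θ ^ 4))) :=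
    Measurable.indicator (by fun_prop) measurableSet_Ioc
  calc _ ≤ ∫⁻ θ in Set.Ioo (-π) π, lensB θ :=
        setLIntegral_mono' measurableSet_Ioo fun θ hθ => lens_radial_le hθ
    _ ≤ ∫⁻ θ, lensB θ := setLIntegral_le_lintegral _ _
    _ = ENNReal.ofReal (π - 9 * √3 / 8) := by
      unfold lensB
      rw [lintegral_add_left hm1, lintegral_indicator measurableSet_Ioc,
        lintegral_indicator measurableSet_Ioc, ← ofReal_integral_eq_lintegral_ofReal,
        ← ofReal_integral_eq_lintegral_ofReal, ← intervalIntegral.integral_of_le (by linarith),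
        ← intervalIntegral.integral_of_le (by linarith), int1, int2, ← ENNReal.ofReal_add]
      · congr 1
        ring
      · rw [← int1]
        apply intervalIntegral.integral_nonneg (by linarith)
        intro x _
        positivity
      · rw [← int2]
        apply intervalIntegral.integral_nonneg (by linarith)
        intro x _
        positivity
      · exact (Continuous.intervalIntegrable (by fun_prop) _ _).1
      · filter_upwards with x
        positivity
      · exact (Continuous.intervalIntegrable (by fun_prop) _ _).1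
      · filter_upwards with x
        positivity

/-- Invariance of Lebesgue measure on `ℂ²` under the relabelling map. -/
lemma lintegral_relabel {u : ℂ} (hu : ‖u‖ = 1) (F : ℂ × ℂ → ℝ≥0∞) (hF : Measurable F) :
    ∫⁻ p : ℂ × ℂ, F (p.1 * u, p.2 + p.1) = ∫⁻ p, F p := by
  have hm : Measurable (fun p : ℂ × ℂ => F (p.1 * u, p.2 + p.1)) := hF.comp (by fun_prop)
  rw [Measure.volume_eq_prod, lintegral_prod _ hm.aemeasurable, lintegral_prod _ hF.aemeasurable]
  have e1 : ∀ v : ℂ, ∫⁻ X, F (v * u, X + v) = ∫⁻ X, F (v * u, X) := by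
    intro v
    exact lintegral_add_right_eq_self (fun X => F (v * u, X)) v
  simp only
  simp_rw [e1]
  have hu0 : u ≠ 0 := by
    intro h; rw [h] at hu; simp at hu
  rw [lintegral_mul_left hu0 (fun v => ∫⁻ X, F (v, X)) hF.lintegral_prod_right', hu]
  simp only [one_pow, ENNReal.ofReal_one, one_mul]
  congr 1
  ext v
  rw [mul_comm]

/-- Configurations in the disk whose first vertex is farthest from the centre. -/
def W0 : Set (ℂ × ℂ) := {p | p ∈ W Dk s0 ∧ ‖p.2 + p.1‖ ≤ ‖p.2‖ ∧ ‖p.2 + p.1 * s0‖ ≤ ‖p.2‖}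

lemma measurable_W0 : MeasurableSet W0 := by
  have h1 : IsClosed {p : ℂ × ℂ | ‖p.2 + p.1‖ ≤ ‖p.2‖} := isClosed_le (by fun_prop) (by fun_prop)
  have h2 : IsClosed {p : ℂ × ℂ | ‖p.2 + p.1 * s0‖ ≤ ‖p.2‖} :=
    isClosed_le (by fun_prop) (by fun_prop)
  exact (measurableSet_W measurable_Dk s0).inter (h1.measurableSet.inter h2.measurableSet)

lemma relabel_W {p : ℂ × ℂ} (hp : p ∈ W Dk s0) :
    ((p.1 * (s0 * s0), p.2 + p.1) : ℂ × ℂ) ∈ W Dk s0 ∧
      p.2 + p.1 + p.1 * (s0 * s0) = p.2 + p.1 * s0 ∧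
      p.2 + p.1 + p.1 * (s0 * s0) * s0 = p.2 := by
  obtain ⟨h1, h2, h3⟩ := hp
  have e1 : p.2 + p.1 + p.1 * (s0 * s0) = p.2 + p.1 * s0 := by rw [s0_sq]; ring
  have e2 : p.2 + p.1 + p.1 * (s0 * s0) * s0 = p.2 := by
    have : s0 * s0 * s0 = -1 := by
      rw [s0_sq, sub_mul, s0_sq]; ring
    rw [mul_assoc, this]; ring
  refine ⟨⟨h2, ?_, ?_⟩, e1, e2⟩
  · rw [e1]; exact h3
  · rw [e2]; exact h1

lemma K_disk_le_three : K Dk s0 ≤ 3 * ∫⁻ p in W0, ENNReal.ofReal (‖p.1‖ ^ 2) := by
  set f : ℂ × ℂ → ℝ≥0∞ := W0.indicator (fun p => ENNReal.ofReal (‖p.1‖ ^ 2)) with hf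
  have mf : Measurable f := Measurable.indicator (by fun_prop) measurable_W0
  have hu : ‖s0 * s0‖ = 1 := by rw [norm_mul, norm_s0, one_mul]
  set T : ℂ × ℂ → ℂ × ℂ := fun p => (p.1 * (s0 * s0), p.2 + p.1) with hT
  have mT : Measurable T := by fun_prop
  have i0 : ∫⁻ p, f p = ∫⁻ p in W0, ENNReal.ofReal (‖p.1‖ ^ 2) := by
    rw [hf, lintegral_indicator measurable_W0]
  have i1 : ∫⁻ p, f (T p) = ∫⁻ p, f p := lintegral_relabel hu f mf
  have i2 : ∫⁻ p, f (T (T p)) = ∫⁻ p, f p := by
    rw [← i1]
    exact lintegral_relabel hu (fun p => f (T p)) (mf.comp mT)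
  have key : ∀ p, (W Dk s0).indicator (fun p : ℂ × ℂ => ENNReal.ofReal (‖p.1‖ ^ 2)) p
      ≤ f p + f (T p) + f (T (T p)) := by
    intro p
    by_cases hp : p ∈ W Dk s0
    · rw [Set.indicator_of_mem hp]
      obtain ⟨r1, r2, r3⟩ := relabel_W hp
      obtain ⟨q1, q2, q3⟩ := relabel_W r1
      have n1 : ‖(T p).1‖ = ‖p.1‖ := by simp only [hT]; rw [norm_mul, hu, mul_one]
      have n2 : ‖(T (T p)).1‖ = ‖p.1‖ := by simp only [hT]; rw [norm_mul, norm_mul, hu, mul_one, mul_one]
      by_cases c0 : ‖p.2 + p.1‖ ≤ ‖p.2‖ ∧ ‖p.2 + p.1 * s0‖ ≤ ‖p.2‖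
      · have : p ∈ W0 := ⟨hp, c0⟩
        have e : f p = ENNReal.ofReal (‖p.1‖ ^ 2) := by rw [hf, Set.indicator_of_mem this]
        rw [e, add_assoc]
        exact le_self_add
      · by_cases c1 : ‖p.2 + p.1 * s0‖ ≤ ‖p.2 + p.1‖ ∧ ‖p.2‖ ≤ ‖p.2 + p.1‖
        · have : T p ∈ W0 := by
            refine ⟨r1, ?_, ?_⟩
            · change ‖p.2 + p.1 + p.1 * (s0 * s0)‖ ≤ ‖p.2 + p.1‖
              rw [r2]; exact c1.1
            · change ‖p.2 + p.1 + p.1 * (s0 * s0) * s0‖ ≤ ‖p.2 + p.1‖
              rw [r3]; exact c1.2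
          have e : f (T p) = ENNReal.ofReal (‖p.1‖ ^ 2) := by
            rw [hf, Set.indicator_of_mem this, n1]
          rw [e, add_right_comm]
          exact le_add_self
        · have : T (T p) ∈ W0 := by
            have w1 : (T (T p)).2 = p.2 + p.1 * s0 := by
              change p.2 + p.1 + p.1 * (s0 * s0) = p.2 + p.1 * s0
              exact r2
            have w2 : (T (T p)).2 + (T (T p)).1 = p.2 := by
              change p.2 + p.1 + p.1 * (s0 * s0) + p.1 * (s0 * s0) * (s0 * s0) = p.2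
              have : p.1 * (s0 * s0) * (s0 * s0) = -(p.1 * s0) := by
                have h3 : s0 * s0 * s0 = -1 := by
                  rw [s0_sq, sub_mul, s0_sq]; ring
                calc p.1 * (s0 * s0) * (s0 * s0) = p.1 * s0 * (s0 * s0 * s0) := by ring
                  _ = _ := by rw [h3]; ring
              rw [this, r2]; ring
            have w3 : (T (T p)).2 + (T (T p)).1 * s0 = p.2 + p.1 := by
              change p.2 + p.1 + p.1 * (s0 * s0) + p.1 * (s0 * s0) * (s0 * s0) * s0 = p.2 + p.1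
              have : p.1 * (s0 * s0) * (s0 * s0) * s0 = -(p.1 * (s0 * s0)) := by
                have h3 : s0 * s0 * s0 = -1 := by
                  rw [s0_sq, sub_mul, s0_sq]; ring
                calc p.1 * (s0 * s0) * (s0 * s0) * s0 = p.1 * (s0 * s0) * (s0 * s0 * s0) := by ring
                  _ = _ := by rw [h3]; ring
              rw [this]; ring
            refine ⟨q1, ?_, ?_⟩
            · rw [w2, w1]
              by_contra hc
              push Not at hc
              apply c0
              rcases le_or_gt ‖p.2 + p.1‖ ‖p.2‖ with hx | hx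
              · exact ⟨hx, hc.le⟩
              · exact absurd ⟨by linarith, hx.le⟩ c1
            · rw [w3, w1]
              by_contra hc
              push Not at hc
              rcases le_or_gt ‖p.2‖ ‖p.2 + p.1‖ with hx | hx
              · exact c1 ⟨hc.le, hx⟩
              · exact c0 ⟨hx.le, by linarith⟩
          have e : f (T (T p)) = ENNReal.ofReal (‖p.1‖ ^ 2) := by
            rw [hf, Set.indicator_of_mem this, n2]
          rw [e]
          exact le_add_self
    · rw [Set.indicator_of_notMem hp]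
      exact bot_le
  unfold K
  rw [← lintegral_indicator (measurableSet_W measurable_Dk s0)]
  calc _ ≤ ∫⁻ p, (f p + f (T p) + f (T (T p))) := lintegral_mono key
    _ = 3 * ∫⁻ p in W0, ENNReal.ofReal (‖p.1‖ ^ 2) := by
      have m2 : Measurable (fun p => f p + f (T p)) := mf.add (mf.comp mT)
      rw [lintegral_add_left m2, lintegral_add_left mf, i1, i2, i0]
      ring

lemma W0_integral_le : ∫⁻ p in W0, ENNReal.ofReal (‖p.1‖ ^ 2)
    ≤ ENNReal.ofReal (π / 3 * (π - 9 * √3 / 8)) := by
  have mW := measurable_W0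
  rw [← lintegral_indicator mW, Measure.volume_eq_prod, lintegral_prod_symm _
    (Measurable.indicator (by fun_prop) mW).aemeasurable]
  have key : ∀ X : ℂ, X ≠ 0 → ∫⁻ v, W0.indicator (fun p : ℂ × ℂ => ENNReal.ofReal (‖p.1‖ ^ 2)) (v, X)
      ≤ Dk.indicator (fun X : ℂ => ENNReal.ofReal (‖X‖ ^ 4) * ENNReal.ofReal (π - 9 * √3 / 8)) X := by
    intro X hX
    by_cases hXD : X ∈ Dk
    · rw [Set.indicator_of_mem hXD]
      rw [lintegral_mul_left (neg_ne_zero.2 hX) (fun v => W0.indicator
        (fun p : ℂ × ℂ => ENNReal.ofReal (‖p.1‖ ^ 2)) (v, X))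
        ((Measurable.indicator (by fun_prop) mW).comp (by fun_prop))]
      rw [norm_neg]
      have hXn : 0 < ‖X‖ := norm_pos_iff.2 hX
      have h2 : ∀ w : ℂ, W0.indicator (fun p : ℂ × ℂ => ENNReal.ofReal (‖p.1‖ ^ 2)) (-X * w, X)
          ≤ ENNReal.ofReal (‖X‖ ^ 2) * Lens.indicator (fun w : ℂ => ENNReal.ofReal (‖w‖ ^ 2)) w := by
        intro w
        by_cases hw : ((-X * w, X) : ℂ × ℂ) ∈ W0
        · have hwL : w ∈ Lens := by
            obtain ⟨_, h3, h4⟩ := hw
            constructor
            · have e : X + -X * w = X * (1 - w) := by ring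
              simp only at h3
              rw [e, norm_mul] at h3
              exact le_of_mul_le_mul_left (by linarith) hXn
            · have e : X + -X * w * s0 = X * (1 - w * s0) := by ring
              simp only at h4
              rw [e, norm_mul] at h4
              exact le_of_mul_le_mul_left (by linarith) hXn
          rw [Set.indicator_of_mem hw, Set.indicator_of_mem hwL,
            ← ENNReal.ofReal_mul (by positivity)]
          apply ENNReal.ofReal_le_ofReal
          rw [norm_mul, norm_neg]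
          apply le_of_eq
          ring
        · rw [Set.indicator_of_notMem hw]
          exact bot_le
      calc _ ≤ ENNReal.ofReal (‖X‖ ^ 2) * ∫⁻ w, (ENNReal.ofReal (‖X‖ ^ 2) *
              Lens.indicator (fun w : ℂ => ENNReal.ofReal (‖w‖ ^ 2)) w) := by
            gcongr
            exact h2 _
        _ = ENNReal.ofReal (‖X‖ ^ 2) * (ENNReal.ofReal (‖X‖ ^ 2) *
              ∫⁻ w in Lens, ENNReal.ofReal (‖w‖ ^ 2)) := by
            rw [lintegral_const_mul _ (Measurable.indicator (by fun_prop) measurable_Lens),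
              lintegral_indicator measurable_Lens]
        _ ≤ ENNReal.ofReal (‖X‖ ^ 2) * (ENNReal.ofReal (‖X‖ ^ 2) *
              ENNReal.ofReal (π - 9 * √3 / 8)) := by
            gcongr
            exact lens_moment
        _ = _ := by
            rw [← mul_assoc, ← ENNReal.ofReal_mul (by positivity)]
            congr 2
            ring
    · rw [Set.indicator_of_notMem hXD]
      apply le_of_eq
      have : ∀ v : ℂ, W0.indicator (fun p : ℂ × ℂ => ENNReal.ofReal (‖p.1‖ ^ 2)) (v, X) = 0 := by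
        intro v
        have : ((v, X) : ℂ × ℂ) ∉ W0 := fun h => hXD h.1.1
        rw [Set.indicator_of_notMem this]
      simp_rw [this]
      exact lintegral_zero
  calc _ ≤ ∫⁻ X, Dk.indicator (fun X : ℂ => ENNReal.ofReal (‖X‖ ^ 4)
          * ENNReal.ofReal (π - 9 * √3 / 8)) X := by
        apply lintegral_mono_ae
        have : ∀ᵐ X : ℂ, X ≠ 0 := by
          rw [ae_iff]
          simp
        filter_upwards [this] with X hX
        exact key X hX
    _ = _ := by
        rw [lintegral_indicator measurable_Dk, lintegral_mul_const _ (by fun_prop), disk_moment,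
          ← ENNReal.ofReal_mul (by positivity)]

lemma K_disk_s0 : K Dk s0 ≤ ENNReal.ofReal (π * (π - 9 * √3 / 8)) := by
  refine K_disk_le_three.trans ?_
  calc 3 * ∫⁻ p in W0, ENNReal.ofReal (‖p.1‖ ^ 2)
      ≤ 3 * ENNReal.ofReal (π / 3 * (π - 9 * √3 / 8)) := by
        gcongr
        exact W0_integral_le
    _ = _ := by
        rw [show (3 : ℝ≥0∞) = ENNReal.ofReal 3 by norm_num, ← ENNReal.ofReal_mul (by norm_num)]
        congr 1
        ring

end Pool.Agent.H946R3.Hall
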