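import Pool.Agent.H946R3.Hall.Basic

open MeasureTheory
open scoped Real ENNReal ComplexConjugate

namespace Pool.Agent.H946R3.Hall

lemma K_conj {S : Set ℂ} (hS : MeasurableSet S) (hc : ∀ z : ℂ, conj z ∈ S ↔ z ∈ S) (σ : ℂ) :
    K S (conj σ) = K S σ := by
  have h1 : MeasurePreserving (fun z : ℂ => conj z) volume volume :=
    Complex.conjLIE.measurePreserving
  have h2 : MeasurePreserving (Prod.map (fun z : ℂ => conj z) (fun z : ℂ => conj z))
      (volume : Measure (ℂ × ℂ)) volume := by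
    rw [Measure.volume_eq_prod]
    exact h1.prod h1
  have mW := measurableSet_W hS σ
  unfold K
  rw [← lintegral_indicator mW, ← lintegral_indicator (measurableSet_W hS (conj σ)),
    ← h2.lintegral_comp (Measurable.indicator (by fun_prop) mW)]
  congr 1
  ext p
  have hiff : p ∈ W S (conj σ) ↔ (Prod.map (fun z : ℂ => conj z) (fun z : ℂ => conj z)) p ∈ W S σ := by
    unfold W
    simp only [Set.mem_ofPred_eq, Prod.map_fst, Prod.map_snd]
    rw [← hc (p.2), ← hc (p.2 + p.1), ← hc (p.2 + p.1 * conj σ)]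
    simp only [map_add, map_mul, Complex.conj_conj]
  by_cases hp : p ∈ W S (conj σ)
  · rw [Set.indicator_of_mem hp, Set.indicator_of_mem (hiff.1 hp)]
    simp only [Prod.map_fst]
    rw [RCLike.norm_conj]
  · rw [Set.indicator_of_notMem hp, Set.indicator_of_notMem (fun h => hp (hiff.2 h))]

/-- The joint configuration set. -/
def Conf (S A : Set ℂ) : Set (ℂ × ℂ × ℂ) :=
  {q | q.1 ∈ A ∧ q.2.2 ∈ S ∧ q.2.2 + q.2.1 ∈ S ∧ q.2.2 + q.2.1 * q.1 ∈ S}

lemma measurable_Conf {S A : Set ℂ} (hS : MeasurableSet S) (hA : MeasurableSet A) :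
    MeasurableSet (Conf S A) := by
  have h0 : Measurable (fun q : ℂ × ℂ × ℂ => q.1) := by fun_prop
  have h1 : Measurable (fun q : ℂ × ℂ × ℂ => q.2.2) := by fun_prop
  have h2 : Measurable (fun q : ℂ × ℂ × ℂ => q.2.2 + q.2.1) := by fun_prop
  have h3 : Measurable (fun q : ℂ × ℂ × ℂ => q.2.2 + q.2.1 * q.1) := by fun_prop
  exact (h0 hA).inter ((h1 hS).inter ((h2 hS).inter (h3 hS)))

/-- The weight. -/
noncomputable def Phi (S A : Set ℂ) (q : ℂ × ℂ × ℂ) : ℝ≥0∞ :=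
  (Conf S A).indicator (fun q => ENNReal.ofReal (‖q.2.1‖ ^ 2)) q

lemma measurable_Phi {S A : Set ℂ} (hS : MeasurableSet S) (hA : MeasurableSet A) :
    Measurable (Phi S A) :=
  Measurable.indicator (by fun_prop) (measurable_Conf hS hA)

lemma K_eq {S A : Set ℂ} (hS : MeasurableSet S) (hA : MeasurableSet A) :
    ∫⁻ σ in A, K S σ = ∫⁻ σ, ∫⁻ v, ∫⁻ X, Phi S A (σ, v, X) := by
  rw [← lintegral_indicator hA]
  congr 1
  ext σ
  by_cases hσ : σ ∈ A
  · rw [Set.indicator_of_mem hσ]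
    unfold K
    rw [← lintegral_indicator (measurableSet_W hS σ), Measure.volume_eq_prod, lintegral_prod _
      (Measurable.indicator (by fun_prop) (measurableSet_W hS σ)).aemeasurable]
    congr 1
    ext v
    congr 1
    ext X
    unfold Phi
    by_cases h : ((v, X) : ℂ × ℂ) ∈ W S σ
    · rw [Set.indicator_of_mem h, Set.indicator_of_mem (show ((σ, v, X) : ℂ × ℂ × ℂ) ∈ Conf S A from
        ⟨hσ, h.1, h.2.1, h.2.2⟩)]
    · rw [Set.indicator_of_notMem h, Set.indicator_of_notMem (show ((σ, v, X) : ℂ × ℂ × ℂ) ∉ Conf S A from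
        fun h' => h ⟨h'.2.1, h'.2.2.1, h'.2.2.2⟩)]
  · rw [Set.indicator_of_notMem hσ]
    have : ∀ v X : ℂ, Phi S A (σ, v, X) = 0 := by
      intro v X
      unfold Phi
      rw [Set.indicator_of_notMem (fun h => hσ h.1)]
    simp_rw [this]
    rw [lintegral_zero, lintegral_zero]

lemma triple {S A : Set ℂ} (hS : MeasurableSet S) (hA : MeasurableSet A) {E : Set (ℂ × ℂ × ℂ)}
    (hE : MeasurableSet E)
    (hEA : ∀ X v σ : ℂ, v ≠ 0 → ((X, X + v, X + v * σ) ∈ E ↔ σ ∈ A)) :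
    ((volume.restrict S).prod ((volume.restrict S).prod (volume.restrict S))) E
      = ∫⁻ σ in A, K S σ := by
  have mB : MeasurableSet (E ∩ (S ×ˢ S ×ˢ S)) := hE.inter (hS.prod (hS.prod hS))
  set B : Set (ℂ × ℂ × ℂ) := E ∩ (S ×ˢ S ×ˢ S) with hB
  have mf : Measurable (B.indicator (1 : ℂ × ℂ × ℂ → ℝ≥0∞)) := measurable_one.indicator mB
  have mP := measurable_Phi hS hA
  have e0 : ((volume.restrict S).prod ((volume.restrict S).prod (volume.restrict S))) E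
      = ∫⁻ X : ℂ, ∫⁻ Y : ℂ, ∫⁻ Z : ℂ, B.indicator (1 : ℂ × ℂ × ℂ → ℝ≥0∞) (X, Y, Z) := by
    rw [Measure.prod_restrict, Measure.prod_restrict, Measure.restrict_apply hE, ← hB,
      ← lintegral_indicator_one mB, lintegral_prod _ mf.aemeasurable]
    congr 1
    ext X
    have mf' : Measurable (fun q : ℂ × ℂ => B.indicator (1 : ℂ × ℂ × ℂ → ℝ≥0∞) (X, q)) :=
      mf.comp measurable_prodMk_left
    rw [lintegral_prod _ mf'.aemeasurable]
  have e1 : ∀ X : ℂ, ∫⁻ Y : ℂ, ∫⁻ Z : ℂ, B.indicator (1 : ℂ × ℂ × ℂ → ℝ≥0∞) (X, Y, Z)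
      = ∫⁻ v : ℂ, ∫⁻ σ : ℂ, Phi S A (σ, v, X) := by
    intro X
    rw [← lintegral_add_left_eq_self (fun Y : ℂ => ∫⁻ Z : ℂ,
      B.indicator (1 : ℂ × ℂ × ℂ → ℝ≥0∞) (X, Y, Z)) X]
    apply lintegral_congr_ae
    have hne : ∀ᵐ v : ℂ, v ≠ 0 := by
      rw [ae_iff]
      simp
    filter_upwards [hne] with v hv
    have mg : Measurable (fun Z : ℂ => B.indicator (1 : ℂ × ℂ × ℂ → ℝ≥0∞) (X, X + v, X + Z)) :=
      mf.comp (by fun_prop)
    have mg' : Measurable (fun Z : ℂ => B.indicator (1 : ℂ × ℂ × ℂ → ℝ≥0∞) (X, X + v, X + v * Z)) :=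
      mf.comp (by fun_prop)
    rw [← lintegral_add_left_eq_self (fun Z : ℂ => B.indicator (1 : ℂ × ℂ × ℂ → ℝ≥0∞) (X, X + v, Z)) X,
      lintegral_mul_left hv _ mg, ← lintegral_const_mul _ mg']
    congr 1
    ext σ
    unfold Phi
    by_cases h : ((X, X + v, X + v * σ) : ℂ × ℂ × ℂ) ∈ B
    · rw [Set.indicator_of_mem h, Set.indicator_of_mem (show ((σ, v, X) : ℂ × ℂ × ℂ) ∈ Conf S A from
        ⟨(hEA X v σ hv).1 h.1, h.2.1, h.2.2.1, h.2.2.2⟩)]
      simp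
    · rw [Set.indicator_of_notMem h, Set.indicator_of_notMem (show ((σ, v, X) : ℂ × ℂ × ℂ) ∉ Conf S A from
        fun h' => h ⟨(hEA X v σ hv).2 h'.1, h'.2.1, h'.2.2.1, h'.2.2.2⟩), mul_zero]
  rw [e0, K_eq hS hA]
  simp_rw [e1]
  -- three swaps
  have s1 : ∀ X : ℂ, ∫⁻ v : ℂ, ∫⁻ σ : ℂ, Phi S A (σ, v, X) = ∫⁻ σ : ℂ, ∫⁻ v : ℂ, Phi S A (σ, v, X) := by
    intro X
    exact lintegral_lintegral_swap (f := fun v σ => Phi S A (σ, v, X))
      (mP.comp (by fun_prop : Measurable (fun p : ℂ × ℂ => ((p.2, p.1, X) : ℂ × ℂ × ℂ)))).aemeasurable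
  simp_rw [s1]
  have m3 : Measurable (fun p : ℂ × ℂ => ∫⁻ v : ℂ, Phi S A (p.2, v, p.1)) := by
    have : Measurable (fun q : (ℂ × ℂ) × ℂ => Phi S A (q.1.2, q.2, q.1.1)) :=
      mP.comp (by fun_prop)
    exact this.lintegral_prod_right'
  rw [lintegral_lintegral_swap (f := fun X σ => ∫⁻ v : ℂ, Phi S A (σ, v, X)) m3.aemeasurable]
  congr 1
  ext σ
  exact lintegral_lintegral_swap (f := fun X v => Phi S A (σ, v, X))
    (mP.comp (by fun_prop : Measurable (fun p : ℂ × ℂ => ((σ, p.2, p.1) : ℂ × ℂ × ℂ)))).aemeasurable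

end Pool.Agent.H946R3.Hall
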