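import Pool.Agent.H946R3.Hall.Square

open MeasureTheory
open scoped Real ENNReal

namespace Pool.Agent.H946R3.Hall

/-- widths of the unit equilateral triangle in direction `θ`. -/
noncomputable def Cw (θ : ℝ) : ℝ :=
  wid (Real.cos θ) (Real.cos θ / 2 - √3 / 2 * Real.sin θ)

noncomputable def Sw (θ : ℝ) : ℝ :=
  wid (Real.sin θ) (Real.sin θ / 2 + √3 / 2 * Real.cos θ)

/-- The angular density. -/
noncomputable def P (θ : ℝ) : ℝ := 1 / 4 - (Cw θ + Sw θ) / 5 + Cw θ * Sw θ / 6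

lemma cos_shift (θ : ℝ) : Real.cos (θ + π / 6) = √3 / 2 * Real.cos θ - Real.sin θ / 2 := by
  rw [Real.cos_add, Real.cos_pi_div_six, Real.sin_pi_div_six]; ring

lemma sin_shift (θ : ℝ) : Real.sin (θ + π / 6) = √3 / 2 * Real.sin θ + Real.cos θ / 2 := by
  rw [Real.sin_add, Real.cos_pi_div_six, Real.sin_pi_div_six]; ring

lemma Cw_shift (θ : ℝ) : Cw (θ + π / 6) = Sw θ := by
  unfold Cw Sw wid
  rw [cos_shift, sin_shift]
  have h3 := sq_sqrt3
  generalize Real.cos θ = c
  generalize Real.sin θ = s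
  have e1 : (√3 / 2 * c - s / 2) / 2 - √3 / 2 * (√3 / 2 * s + c / 2) = -s := by
    linear_combination (-s / 4) * h3
  have e2 : -s - (√3 / 2 * c - s / 2) = -(s / 2 + √3 / 2 * c) := by ring
  have e3 : s / 2 + √3 / 2 * c - s = √3 / 2 * c - s / 2 := by ring
  rw [e1, e2, e3, abs_neg, abs_neg]
  rw [max_assoc, max_comm |√3 / 2 * c - s / 2|]

lemma Sw_shift (θ : ℝ) : Sw (θ + π / 6) = Cw θ := by
  unfold Cw Sw wid
  rw [cos_shift, sin_shift]
  have h3 := sq_sqrt3
  generalize Real.cos θ = c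
  generalize Real.sin θ = s
  have e1 : (√3 / 2 * s + c / 2) / 2 + √3 / 2 * (√3 / 2 * c - s / 2) = c := by
    linear_combination (c / 4) * h3
  have e2 : c - (√3 / 2 * s + c / 2) = c / 2 - √3 / 2 * s := by ring
  have e3 : c / 2 - √3 / 2 * s - c = -(√3 / 2 * s + c / 2) := by ring
  rw [e1, e2, e3, abs_neg]
  rw [max_assoc, max_comm |√3 / 2 * s + c / 2|]

lemma P_periodic : Function.Periodic P (π / 6) := by
  intro θ
  unfold P
  rw [Cw_shift, Sw_shift]
  ring

lemma Cw_cont : Continuous Cw := by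
  unfold Cw wid
  fun_prop

lemma Sw_cont : Continuous Sw := by
  unfold Sw wid
  fun_prop

lemma P_cont : Continuous P := by
  unfold P
  have := Cw_cont
  have := Sw_cont
  fun_prop

lemma Cw_eq {θ : ℝ} (h0 : 0 ≤ θ) (h1 : θ ≤ π / 6) : Cw θ = Real.cos θ := by
  have hπ := Real.pi_pos
  have hs : 0 ≤ Real.sin θ := Real.sin_nonneg_of_nonneg_of_le_pi h0 (by linarith)
  have hs2 : Real.sin θ ≤ 1 / 2 := by
    rw [← Real.sin_pi_div_six]
    exact Real.sin_le_sin_of_le_of_le_pi_div_two (by linarith) (by linarith) h1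
  have hc : √3 / 2 ≤ Real.cos θ := by
    rw [← Real.cos_pi_div_six]
    exact Real.cos_le_cos_of_nonneg_of_le_pi h0 (by linarith) h1
  have h3 := sq_sqrt3
  have h3' : 0 < √3 := by positivity
  have h3'' : √3 ≤ 2 := by nlinarith
  unfold Cw wid
  generalize Real.cos θ = c at *
  generalize Real.sin θ = s at *
  have hc0 : 0 ≤ c := by linarith
  have hss : √3 / 2 * s ≤ c / 2 := by nlinarith
  have hss0 : 0 ≤ √3 / 2 * s := by positivity
  rw [abs_of_nonneg hc0]
  have e2 : |c / 2 - √3 / 2 * s| ≤ c := by rw [abs_le]; constructor <;> linarith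
  have e3 : |c / 2 - √3 / 2 * s - c| ≤ c := by rw [abs_le]; constructor <;> linarith
  rw [max_eq_left e2, max_eq_left e3]

lemma Sw_eq {θ : ℝ} (h0 : 0 ≤ θ) (h1 : θ ≤ π / 6) :
    Sw θ = Real.sin θ / 2 + √3 / 2 * Real.cos θ := by
  have hπ := Real.pi_pos
  have hs : 0 ≤ Real.sin θ := Real.sin_nonneg_of_nonneg_of_le_pi h0 (by linarith)
  have hs2 : Real.sin θ ≤ 1 / 2 := by
    rw [← Real.sin_pi_div_six]
    exact Real.sin_le_sin_of_le_of_le_pi_div_two (by linarith) (by linarith) h1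
  have hc : √3 / 2 ≤ Real.cos θ := by
    rw [← Real.cos_pi_div_six]
    exact Real.cos_le_cos_of_nonneg_of_le_pi h0 (by linarith) h1
  have h3 := sq_sqrt3
  have h3' : 0 < √3 := by positivity
  unfold Sw wid
  generalize Real.cos θ = c at *
  generalize Real.sin θ = s at *
  have hc0 : 0 ≤ c := by linarith
  have hcc : 3 / 4 ≤ √3 / 2 * c := by nlinarith
  rw [abs_of_nonneg (show 0 ≤ s / 2 + √3 / 2 * c by positivity)]
  have e2 : |s| ≤ s / 2 + √3 / 2 * c := by rw [abs_of_nonneg hs]; linarith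
  have e3 : |s / 2 + √3 / 2 * c - s| ≤ s / 2 + √3 / 2 * c := by rw [abs_le]; constructor <;> linarith
  rw [max_eq_right e2, max_eq_left e3]

lemma integral_P : ∫ θ in (-π)..π, P θ = π / 2 + √3 * π / 12 - 19 / 10 := by
  have hπ := Real.pi_pos
  have h1 := P_periodic.intervalIntegral_add_zsmul_eq 12 (-π)
    (fun a b => P_cont.intervalIntegrable a b)
  have e1 : -π + (12 : ℤ) • (π / 6) = π := by
    simp only [zsmul_eq_mul]; push_cast; ring
  rw [e1] at h1
  rw [h1, P_periodic.intervalIntegral_add_eq (-π) 0, zero_add]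
  have h2 : ∫ θ in (0 : ℝ)..(π / 6), P θ = ∫ θ in (0 : ℝ)..(π / 6),
      (1 / 4 - (Real.cos θ + (Real.sin θ / 2 + √3 / 2 * Real.cos θ)) / 5
        + Real.cos θ * (Real.sin θ / 2 + √3 / 2 * Real.cos θ) / 6) := by
    apply intervalIntegral.integral_congr
    intro θ hθ
    rw [Set.uIcc_of_le (by positivity)] at hθ
    simp only [P]
    rw [Cw_eq hθ.1 hθ.2, Sw_eq hθ.1 hθ.2]
  rw [h2]
  have hd : ∀ x ∈ Set.uIcc (0 : ℝ) (π / 6), HasDerivAt
      (fun θ : ℝ => θ / 4 - (Real.sin θ + (-(Real.cos θ) / 2 + √3 / 2 * Real.sin θ)) / 5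
        + (Real.sin θ ^ 2 / 4 + √3 / 2 * (θ / 2 + Real.sin (2 * θ) / 4)) / 6)
      (1 / 4 - (Real.cos x + (Real.sin x / 2 + √3 / 2 * Real.cos x)) / 5
        + Real.cos x * (Real.sin x / 2 + √3 / 2 * Real.cos x) / 6) x := by
    intro x _
    have hs := Real.hasDerivAt_sin x
    have hc := Real.hasDerivAt_cos x
    have hi := hasDerivAt_id x
    have h2x : HasDerivAt (fun x : ℝ => Real.sin (2 * x)) (Real.cos (2 * x) * 2) x := by
      have h : HasDerivAt (fun x : ℝ => 2 * x) 2 x := by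
        have := (hasDerivAt_id x).const_mul (2 : ℝ)
        simpa using this
      exact h.sin
    have hA := ((hi.div_const 4).sub ((hs.add ((hc.neg.div_const 2).add (hs.const_mul (√3 / 2)))).div_const 5)).add
      ((((hs.pow 2).div_const 4).add (((hi.div_const 2).add (h2x.div_const 4)).const_mul (√3 / 2))).div_const 6)
    refine HasDerivAt.congr_deriv hA ?_
    rw [Real.cos_two_mul]
    push_cast
    ring
  rw [intervalIntegral.integral_eq_sub_of_hasDerivAt hd
    (Continuous.intervalIntegrable (by fun_prop) _ _)]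
  rw [Real.sin_pi_div_six, Real.cos_pi_div_six, show 2 * (π / 6) = π / 3 by ring,
    Real.sin_pi_div_three]
  have h3 := sq_sqrt3
  simp only [mul_zero, Real.sin_zero, Real.cos_zero, zsmul_eq_mul]
  push_cast
  linear_combination (1 / 8 : ℝ) * h3

lemma wid_le_one_aux {x y : ℝ} (hx : x ^ 2 ≤ 1) (hy : y ^ 2 ≤ 1) (hxy : (y - x) ^ 2 ≤ 1) :
    wid x y ≤ 1 := by
  unfold wid
  rw [sq_le_one_iff_abs_le_one] at hx hy hxy
  exact max_le (max_le hx hy) hxy

lemma wid_nonneg (x y : ℝ) : 0 ≤ wid x y :=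
  (abs_nonneg x).trans ((le_max_left _ _).trans (le_max_left _ _))

lemma Cw_le_one (θ : ℝ) : Cw θ ≤ 1 := by
  have h := Real.cos_sq_add_sin_sq θ
  have h3 := sq_sqrt3
  unfold Cw
  generalize Real.cos θ = c at *
  generalize Real.sin θ = s at *
  apply wid_le_one_aux
  · nlinarith [sq_nonneg s]
  · have e : (c / 2 - √3 / 2 * s) ^ 2 = (c ^ 2 + s ^ 2) - (√3 / 2 * c + s / 2) ^ 2
      + (√3 * √3 - 3) * (c ^ 2 + s ^ 2) / 4 := by ring
    rw [e, h, h3]
    nlinarith [sq_nonneg (√3 / 2 * c + s / 2)]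
  · have e : (c / 2 - √3 / 2 * s - c) ^ 2 = (c ^ 2 + s ^ 2) - (√3 / 2 * c - s / 2) ^ 2
      + (√3 * √3 - 3) * (c ^ 2 + s ^ 2) / 4 := by ring
    rw [e, h, h3]
    nlinarith [sq_nonneg (√3 / 2 * c - s / 2)]

lemma Sw_le_one (θ : ℝ) : Sw θ ≤ 1 := by
  rw [← Cw_shift]; exact Cw_le_one _

lemma Cw_nonneg (θ : ℝ) : 0 ≤ Cw θ := wid_nonneg _ _
lemma Sw_nonneg (θ : ℝ) : 0 ≤ Sw θ := wid_nonneg _ _

lemma P_nonneg (θ : ℝ) : 0 ≤ P θ := by
  have h1 := Cw_le_one θ
  have h2 := Sw_le_one θ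
  have h3 := Cw_nonneg θ
  have h4 := Sw_nonneg θ
  unfold P
  nlinarith [mul_nonneg (sub_nonneg.2 h1) (sub_nonneg.2 h2), mul_nonneg h3 (sub_nonneg.2 h2),
    mul_nonneg (sub_nonneg.2 h1) h4, mul_nonneg h3 h4]

/-- The radial integral. -/
lemma radial_sq {C S : ℝ} (hC0 : 0 ≤ C) (hC : C ≤ 1) (hS0 : 0 ≤ S) (hS : S ≤ 1) :
    ∫⁻ r in Set.Ioc (0 : ℝ) 1, ENNReal.ofReal (r ^ 3 * ((1 - r * C) * (1 - r * S)))
      = ENNReal.ofReal (1 / 4 - (C + S) / 5 + C * S / 6) := by
  rw [← ofReal_integral_eq_lintegral_ofReal]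
  · congr 1
    rw [← intervalIntegral.integral_of_le zero_le_one]
    have hd : ∀ x ∈ Set.uIcc (0 : ℝ) 1, HasDerivAt
        (fun r : ℝ => r ^ 4 / 4 - (C + S) * (r ^ 5 / 5) + C * S * (r ^ 6 / 6))
        (x ^ 3 * ((1 - x * C) * (1 - x * S))) x := by
      intro x _
      have hA := (((hasDerivAt_pow 4 x).div_const 4).sub
        (((hasDerivAt_pow 5 x).div_const 5).const_mul (C + S))).add
        (((hasDerivAt_pow 6 x).div_const 6).const_mul (C * S))
      refine HasDerivAt.congr_deriv hA ?_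
      push_cast
      ring
    rw [intervalIntegral.integral_eq_sub_of_hasDerivAt hd
      (Continuous.intervalIntegrable (by fun_prop) _ _)]
    norm_num
    ring
  · exact (Continuous.intervalIntegrable (by fun_prop) _ _).1
  · filter_upwards [ae_restrict_mem measurableSet_Ioc] with r hr
    have h1 : r * C ≤ 1 := by
      calc r * C ≤ 1 * 1 := mul_le_mul hr.2 hC hC0 zero_le_one
        _ = 1 := one_mul 1
    have h2 : r * S ≤ 1 := by
      calc r * S ≤ 1 * 1 := mul_le_mul hr.2 hS hS0 zero_le_one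
        _ = 1 := one_mul 1
    have := hr.1.le
    exact mul_nonneg (by positivity) (mul_nonneg (by linarith) (by linarith))

/-- The planar lower density. -/
noncomputable def G (v : ℂ) : ℝ≥0∞ :=
  {v : ℂ | ‖v‖ ≤ 1}.indicator (fun v => ENNReal.ofReal (‖v‖ ^ 2 *
    ((1 - wid v.re (v * s0).re) * (1 - wid v.im (v * s0).im)))) v

lemma G_measurable : Measurable G := by
  unfold G
  refine Measurable.indicator ?_ (isClosed_le (by fun_prop) continuous_const).measurableSet
  unfold wid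
  fun_prop

lemma polar_re (r θ : ℝ) : ((r : ℂ) * (Real.cos θ + Real.sin θ * Complex.I)).re
    = r * Real.cos θ := by
  generalize Real.cos θ = c
  generalize Real.sin θ = s
  simp
lemma polar_im (r θ : ℝ) : ((r : ℂ) * (Real.cos θ + Real.sin θ * Complex.I)).im
    = r * Real.sin θ := by
  generalize Real.cos θ = c
  generalize Real.sin θ = s
  simp
lemma polar_s0_re (r θ : ℝ) : ((r : ℂ) * (Real.cos θ + Real.sin θ * Complex.I) * s0).re
    = r * (Real.cos θ / 2 - √3 / 2 * Real.sin θ) := by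
  rw [Complex.mul_re, polar_re, polar_im]
  have h1 : s0.re = 1 / 2 := rfl
  have h2 : s0.im = √3 / 2 := rfl
  rw [h1, h2]; ring
lemma polar_s0_im (r θ : ℝ) : ((r : ℂ) * (Real.cos θ + Real.sin θ * Complex.I) * s0).im
    = r * (Real.sin θ / 2 + √3 / 2 * Real.cos θ) := by
  rw [Complex.mul_im, polar_re, polar_im]
  have h1 : s0.re = 1 / 2 := rfl
  have h2 : s0.im = √3 / 2 := rfl
  rw [h1, h2]; ring

lemma lintegral_G : ∫⁻ v, G v = ENNReal.ofReal (π / 2 + √3 * π / 12 - 19 / 10) := by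
  have hπ := Real.pi_pos
  rw [lintegral_polar G G_measurable, ← integral_P]
  have e1 : ∀ θ : ℝ, ∫⁻ r in Set.Ioi (0 : ℝ), ENNReal.ofReal r *
      G ((r : ℂ) * (Real.cos θ + Real.sin θ * Complex.I)) = ENNReal.ofReal (P θ) := by
    intro θ
    unfold P
    rw [← radial_sq (Cw_nonneg θ) (Cw_le_one θ) (Sw_nonneg θ) (Sw_le_one θ),
      ← lintegral_indicator measurableSet_Ioi, ← lintegral_indicator measurableSet_Ioc]
    congr 1
    ext r
    by_cases hr : 0 < r
    · rw [Set.indicator_of_mem (show r ∈ Set.Ioi (0 : ℝ) from hr)]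
      by_cases hr1 : r ≤ 1
      · rw [Set.indicator_of_mem (show r ∈ Set.Ioc (0 : ℝ) 1 from ⟨hr, hr1⟩)]
        unfold G
        rw [Set.indicator_of_mem (by
          change ‖(r : ℂ) * (Real.cos θ + Real.sin θ * Complex.I)‖ ≤ 1
          rw [norm_polar hr.le]; exact hr1)]
        rw [norm_polar hr.le, polar_re, polar_im, polar_s0_re, polar_s0_im,
          wid_smul hr.le, wid_smul hr.le, ← ENNReal.ofReal_mul hr.le]
        congr 1
        unfold Cw Sw
        ring
      · rw [Set.indicator_of_notMem (fun h : r ∈ Set.Ioc (0 : ℝ) 1 => hr1 h.2)]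
        unfold G
        rw [Set.indicator_of_notMem, mul_zero]
        change ¬ ‖(r : ℂ) * (Real.cos θ + Real.sin θ * Complex.I)‖ ≤ 1
        rw [norm_polar hr.le]; exact hr1
    · rw [Set.indicator_of_notMem (show r ∉ Set.Ioi (0 : ℝ) from hr),
        Set.indicator_of_notMem (fun h : r ∈ Set.Ioc (0 : ℝ) 1 => hr h.1)]
  simp_rw [e1]
  rw [intervalIntegral.integral_of_le (by linarith), ofReal_integral_eq_lintegral_ofReal,
    Measure.restrict_congr_set Ioo_ae_eq_Ioc]
  · exact (P_cont.intervalIntegrable _ _).1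
  · filter_upwards with θ
    exact P_nonneg θ

lemma abs_le_norm_aux (v : ℂ) : wid v.re (v * s0).re ≤ ‖v‖ := by
  have h1 : |v.re| ≤ ‖v‖ := Complex.abs_re_le_norm v
  have h2 : |(v * s0).re| ≤ ‖v‖ := by
    refine (Complex.abs_re_le_norm _).trans ?_
    rw [norm_mul, norm_s0, mul_one]
  have h3 : |(v * s0).re - v.re| ≤ ‖v‖ := by
    have : (v * s0).re - v.re = (v * (s0 * s0)).re := by
      rw [s0_sq, ← Complex.sub_re]; ring_nf
    rw [this]
    refine (Complex.abs_re_le_norm _).trans ?_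
    rw [norm_mul, norm_mul, norm_s0, mul_one, mul_one]
  exact max_le (max_le h1 h2) h3

lemma K_sq_s0 : ENNReal.ofReal (π / 2 + √3 * π / 12 - 19 / 10) ≤ K Sq s0 := by
  rw [← lintegral_G]
  unfold K
  have mW := measurableSet_W measurable_Sq s0
  rw [← lintegral_indicator mW, Measure.volume_eq_prod, lintegral_prod _
    (Measurable.indicator (by fun_prop) mW).aemeasurable]
  apply lintegral_mono
  intro v
  have e1 : ∫⁻ X, (W Sq s0).indicator (fun p : ℂ × ℂ => ENNReal.ofReal (‖p.1‖ ^ 2)) (v, X)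
      = ENNReal.ofReal (‖v‖ ^ 2) * volume {X : ℂ | (v, X) ∈ W Sq s0} := by
    have hm : MeasurableSet {X : ℂ | (v, X) ∈ W Sq s0} := measurable_prodMk_left mW
    rw [← setLIntegral_const, ← lintegral_indicator hm]
    congr 1
  refine le_of_le_of_eq ?_ e1.symm
  unfold G
  by_cases hv : ‖v‖ ≤ 1
  · rw [Set.indicator_of_mem (show v ∈ {v : ℂ | ‖v‖ ≤ 1} from hv), ENNReal.ofReal_mul (by positivity)]
    gcongr
    apply section_ge
    have := abs_le_norm_aux v
    linarith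
  · rw [Set.indicator_of_notMem (show v ∉ {v : ℂ | ‖v‖ ≤ 1} from hv)]
    exact bot_le

end Pool.Agent.H946R3.Hall
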