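import Pool.Agent.H946R3.Hall.Disk2
import Pool.Agent.H946R3.Hall.Square2
import Pool.Agent.H946R3.Hall.Shape
import Pool.Agent.H946R3.Hall.Angle

open MeasureTheory InnerProductGeometry
open scoped Real ENNReal ComplexConjugate

namespace Pool.Agent.H946R3.Hall

/-- Triples of points with all angles at most `φ`. -/
def Ev (φ : ℝ) : Set (ℂ × ℂ × ℂ) :=
  {p | angle (p.2.1 - p.1) (p.2.2 - p.1) ≤ φ ∧ angle (p.1 - p.2.1) (p.2.2 - p.2.1) ≤ φ ∧
    angle (p.1 - p.2.2) (p.2.1 - p.2.2) ≤ φ}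

lemma measurableSet_Ev (φ : ℝ) : MeasurableSet (Ev φ) := by
  have h1 : Measurable (fun p : ℂ × ℂ × ℂ => angle (p.2.1 - p.1) (p.2.2 - p.1)) :=
    measurable_angle (by fun_prop) (by fun_prop)
  have h2 : Measurable (fun p : ℂ × ℂ × ℂ => angle (p.1 - p.2.1) (p.2.2 - p.2.1)) :=
    measurable_angle (by fun_prop) (by fun_prop)
  have h3 : Measurable (fun p : ℂ × ℂ × ℂ => angle (p.1 - p.2.2) (p.2.1 - p.2.2)) :=
    measurable_angle (by fun_prop) (by fun_prop)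
  exact (measurableSet_le h1 measurable_const).inter
    ((measurableSet_le h2 measurable_const).inter (measurableSet_le h3 measurable_const))

lemma Ev_iff (φ : ℝ) (X v σ : ℂ) (hv : v ≠ 0) : (X, X + v, X + v * σ) ∈ Ev φ ↔ σ ∈ A φ := by
  unfold Ev A
  have e1 : X + v - X = v * 1 := by ring
  have e2 : X + v * σ - X = v * σ := by ring
  have e3 : X - (X + v) = v * (-1) := by ring
  have e4 : X + v * σ - (X + v) = v * (σ - 1) := by ring
  have e5 : X - (X + v * σ) = v * (-σ) := by ring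
  have e6 : X + v - (X + v * σ) = v * (1 - σ) := by ring
  simp only [Set.mem_ofPred_eq]
  rw [e1, e2, e3, e4, e5, e6, Complex.angle_mul_left hv, Complex.angle_mul_left hv,
    Complex.angle_mul_left hv]

/-- Unnormalised count. -/
noncomputable def N (S : Set ℂ) (φ : ℝ) : ℝ≥0∞ :=
  ((volume.restrict S).prod ((volume.restrict S).prod (volume.restrict S))) (Ev φ)

lemma N_eq {S : Set ℂ} (hS : MeasurableSet S) (φ : ℝ) : N S φ = ∫⁻ σ in A φ, K S σ :=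
  triple hS (measurableSet_A φ) (measurableSet_Ev φ) (fun X v σ hv => Ev_iff φ X v σ hv)

lemma Dk_conj (z : ℂ) : conj z ∈ Dk ↔ z ∈ Dk := by
  rw [mem_Dk, mem_Dk, RCLike.norm_conj]

lemma Sq_conj (z : ℂ) : conj z ∈ Sq ↔ z ∈ Sq := by
  unfold Sq
  simp only [Set.mem_ofPred_eq, Complex.conj_re, Complex.conj_im, abs_neg]

lemma K_disk_A {φ : ℝ} (h1 : φ < π / 2) (h2 : 1 / 2 - 1 / 10 ^ 5 ≤ Real.cos φ) {σ : ℂ}
    (hσ : σ ∈ A φ) : K Dk σ ≤ ENNReal.ofReal ((1 + 2 * (1 / 2000)) ^ 6) *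
      ENNReal.ofReal (π * (π - 9 * √3 / 8)) := by
  have key : ∀ z : ℂ, ‖z - s0‖ ≤ 1 / 2000 → K Dk z ≤ ENNReal.ofReal ((1 + 2 * (1 / 2000)) ^ 6) *
      ENNReal.ofReal (π * (π - 9 * √3 / 8)) := by
    intro z hz
    refine (K_disk_near (by norm_num) hz).trans ?_
    gcongr
    exact K_disk_s0
  rcases A_near h1 h2 hσ with h | h
  · exact key σ h
  · rw [← K_conj measurable_Dk Dk_conj σ]
    exact key _ h

lemma K_sq_A {φ : ℝ} (h1 : φ < π / 2) (h2 : 1 / 2 - 1 / 10 ^ 5 ≤ Real.cos φ) {σ : ℂ}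
    (hσ : σ ∈ A φ) : ENNReal.ofReal (((1 + 3 * (1 / 2000))⁻¹) ^ 6) *
      ENNReal.ofReal (π / 2 + √3 * π / 12 - 19 / 10) ≤ K Sq σ := by
  have key : ∀ z : ℂ, ‖z - s0‖ ≤ 1 / 2000 → ENNReal.ofReal (((1 + 3 * (1 / 2000))⁻¹) ^ 6) *
      ENNReal.ofReal (π / 2 + √3 * π / 12 - 19 / 10) ≤ K Sq z := by
    intro z hz
    refine le_trans ?_ (K_sq_near (by norm_num) hz)
    gcongr
    exact K_sq_s0
  rcases A_near h1 h2 hσ with h | h
  · exact key σ h
  · rw [← K_conj measurable_Sq Sq_conj σ]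
    exact key _ h

lemma vol_A_pos {φ : ℝ} (h : π / 3 < φ) : 0 < volume (A φ) :=
  Measure.measure_pos_of_mem_nhds volume (A_nhds h)

lemma vol_A_lt_top {φ : ℝ} (h1 : φ < π / 2) (h2 : 1 / 2 - 1 / 10 ^ 5 ≤ Real.cos φ) :
    volume (A φ) < ∞ := by
  have hsub : A φ ⊆ Metric.closedBall (0 : ℂ) 2 := by
    intro σ hσ
    rw [mem_closedBall_zero_iff]
    have n0 := norm_s0
    rcases A_near h1 h2 hσ with h | h
    · have : ‖σ‖ ≤ ‖σ - s0‖ + ‖s0‖ := by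
        have := norm_add_le (σ - s0) s0
        simpa using this
      rw [n0] at this
      linarith
    · have : ‖conj σ‖ ≤ ‖conj σ - s0‖ + ‖s0‖ := by
        have := norm_add_le (conj σ - s0) s0
        simpa using this
      rw [n0, RCLike.norm_conj] at this
      linarith
  exact (measure_mono hsub).trans_lt measure_closedBall_lt_top

lemma N_disk_le {φ : ℝ} (h1 : φ < π / 2) (h2 : 1 / 2 - 1 / 10 ^ 5 ≤ Real.cos φ) :
    N Dk φ ≤ ENNReal.ofReal ((1 + 2 * (1 / 2000)) ^ 6) *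
      ENNReal.ofReal (π * (π - 9 * √3 / 8)) * volume (A φ) := by
  rw [N_eq measurable_Dk, ← setLIntegral_const]
  exact setLIntegral_mono' (measurableSet_A φ) fun σ hσ => K_disk_A h1 h2 hσ

lemma N_sq_ge {φ : ℝ} (h1 : φ < π / 2) (h2 : 1 / 2 - 1 / 10 ^ 5 ≤ Real.cos φ) :
    ENNReal.ofReal (((1 + 3 * (1 / 2000))⁻¹) ^ 6) *
      ENNReal.ofReal (π / 2 + √3 * π / 12 - 19 / 10) * volume (A φ) ≤ N Sq φ := by
  rw [N_eq measurable_Sq, ← setLIntegral_const]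
  exact setLIntegral_mono' (measurableSet_A φ) fun σ hσ => K_sq_A h1 h2 hσ

lemma numeric : (1 + 2 * (1 / 2000 : ℝ)) ^ 6 * (π * (π - 9 * √3 / 8)) <
    π ^ 3 * (((1 + 3 * (1 / 2000 : ℝ))⁻¹) ^ 6 * (π / 2 + √3 * π / 12 - 19 / 10)) := by
  have p1 := Real.pi_gt_d4
  have p2 := Real.pi_lt_d4
  have s1 : 1.732 < √3 := by
    rw [Real.lt_sqrt (by norm_num)]; norm_num
  have hA : (1 + 2 * (1 / 2000 : ℝ)) ^ 6 * (1 + 3 * (1 / 2000 : ℝ)) ^ 6 ≤ 1.0153 := by norm_num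
  have hc : ((1 + 3 * (1 / 2000 : ℝ))⁻¹) ^ 6 = ((1 + 3 * (1 / 2000 : ℝ)) ^ 6)⁻¹ := inv_pow _ _
  have hpos : (0 : ℝ) < (1 + 3 * (1 / 2000 : ℝ)) ^ 6 := by positivity
  have hπ : 0 < π := Real.pi_pos
  have b1 : π - 9 * √3 / 8 ≤ 1.1932 := by linarith
  have b1' : 0 ≤ π - 9 * √3 / 8 := by
    have : √3 < 1.733 := by
      rw [Real.sqrt_lt' (by norm_num)]; norm_num
    linarith
  have b2 : 0.1241 ≤ π / 2 + √3 * π / 12 - 19 / 10 := by
    have : 1.732 * 3.1415 ≤ √3 * π := mul_le_mul s1.le p1.le (by norm_num) (by positivity)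
    norm_num at *
    linarith
  have b3 : 9.869 ≤ π ^ 2 := by
    have : (3.1415 : ℝ) ^ 2 ≤ π ^ 2 := pow_le_pow_left₀ (by norm_num) p1.le 2
    norm_num at *
    linarith
  have key : (1 + 2 * (1 / 2000 : ℝ)) ^ 6 * (1 + 3 * (1 / 2000 : ℝ)) ^ 6 * (π - 9 * √3 / 8)
      < π ^ 2 * (π / 2 + √3 * π / 12 - 19 / 10) := by
    calc _ ≤ 1.0153 * 1.1932 := mul_le_mul hA b1 b1' (by norm_num)
      _ < 9.869 * 0.1241 := by norm_num
      _ ≤ _ := mul_le_mul b3 b2 (by norm_num) (by positivity)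
  rw [hc]
  have e1 : π ^ 3 * (((1 + 3 * (1 / 2000 : ℝ)) ^ 6)⁻¹ * (π / 2 + √3 * π / 12 - 19 / 10))
      = π * (π ^ 2 * (π / 2 + √3 * π / 12 - 19 / 10)) / (1 + 3 * (1 / 2000 : ℝ)) ^ 6 := by
    field_simp
  rw [e1, lt_div_iff₀ hpos]
  calc _ = π * ((1 + 2 * (1 / 2000 : ℝ)) ^ 6 * (1 + 3 * (1 / 2000 : ℝ)) ^ 6 * (π - 9 * √3 / 8)) := by
        ring
    _ < _ := mul_lt_mul_of_pos_left key hπ

lemma vol_Dk : volume Dk = ENNReal.ofReal π := by
  unfold Dk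
  rw [Complex.volume_closedBall]
  simp only [ENNReal.ofReal_one, one_pow, one_mul]
  rw [← NNReal.coe_real_pi, ENNReal.ofReal_coe_nnreal]

lemma vol_Sq : volume Sq = 1 := by
  have : Sq = Complex.measurableEquivRealProd ⁻¹'
      ((Set.Icc (-(1 / 2)) (1 / 2)) ×ˢ (Set.Icc (-(1 / 2)) (1 / 2))) := by
    ext z
    unfold Sq
    simp only [Set.mem_ofPred_eq, Set.mem_preimage, Set.mem_prod, Set.mem_Icc, abs_le]
    rfl
  rw [this, Complex.volume_preserving_equiv_real_prod.measure_preimage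
    (measurableSet_Icc.prod measurableSet_Icc).nullMeasurableSet, Measure.volume_eq_prod,
    Measure.prod_prod, Real.volume_Icc]
  norm_num

/-- The main comparison. -/
theorem main {φ : ℝ} (h0 : π / 3 < φ) (h1 : φ < π / 2) (h2 : 1 / 2 - 1 / 10 ^ 5 ≤ Real.cos φ) :
    (volume Dk)⁻¹ * ((volume Dk)⁻¹ * ((volume Dk)⁻¹ * N Dk φ)) <
      (volume Sq)⁻¹ * ((volume Sq)⁻¹ * ((volume Sq)⁻¹ * N Sq φ)) := by
  have hπ : 0 < π := Real.pi_pos
  rw [vol_Dk, vol_Sq]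
  simp only [inv_one, one_mul]
  have v0 := vol_A_pos h0
  have v1 := vol_A_lt_top h1 h2
  refine lt_of_lt_of_le ?_ (N_sq_ge h1 h2)
  have e1 : (ENNReal.ofReal π)⁻¹ * ((ENNReal.ofReal π)⁻¹ * ((ENNReal.ofReal π)⁻¹ * N Dk φ))
      ≤ ENNReal.ofReal (π⁻¹ * (π⁻¹ * (π⁻¹ * ((1 + 2 * (1 / 2000)) ^ 6 * (π * (π - 9 * √3 / 8)))))) *
        volume (A φ) := by
    calc _ ≤ (ENNReal.ofReal π)⁻¹ * ((ENNReal.ofReal π)⁻¹ * ((ENNReal.ofReal π)⁻¹ *
          (ENNReal.ofReal ((1 + 2 * (1 / 2000)) ^ 6) *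
      ENNReal.ofReal (π * (π - 9 * √3 / 8)) * volume (A φ)))) := by
          gcongr
          exact N_disk_le h1 h2
      _ = _ := by
          have hc1 : (0 : ℝ) ≤ (1 + 2 * (1 / 2000)) ^ 6 := by positivity
          have hpi : (0 : ℝ) ≤ π⁻¹ := by positivity
          rw [← ENNReal.ofReal_inv_of_pos hπ]
          generalize ((1 + 2 * (1 / 2000)) ^ 6 : ℝ) = c1 at *
          generalize π * (π - 9 * √3 / 8) = c2
          generalize π⁻¹ = c3 at *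
          rw [ENNReal.ofReal_mul hpi, ENNReal.ofReal_mul hpi, ENNReal.ofReal_mul hpi,
            ENNReal.ofReal_mul hc1]
          ring
  refine e1.trans_lt ?_
  rw [← ENNReal.ofReal_mul (by positivity)]
  refine ENNReal.mul_lt_mul_left v0.ne' v1.ne ?_
  rw [ENNReal.ofReal_lt_ofReal_iff]
  · have hn := numeric
    have e2 : π⁻¹ * (π⁻¹ * (π⁻¹ * ((1 + 2 * (1 / 2000)) ^ 6 * (π * (π - 9 * √3 / 8)))))
        = ((1 + 2 * (1 / 2000 : ℝ)) ^ 6 * (π * (π - 9 * √3 / 8))) / π ^ 3 := by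
      field_simp
    rw [e2, div_lt_iff₀ (by positivity), mul_comm _ (π ^ 3)]
    exact hn
  · have b2 : 0 < π / 2 + √3 * π / 12 - 19 / 10 := by
      have p1 := Real.pi_gt_d4
      have s1 : 1.732 < √3 := by
        rw [Real.lt_sqrt (by norm_num)]; norm_num
      have : 1.732 * 3.1415 ≤ √3 * π := mul_le_mul s1.le p1.le (by norm_num) (by positivity)
      norm_num at *
      linarith
    positivity

end Pool.Agent.H946R3.Hall
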