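import Pool.Agent.H946R3.Hall.Disk

open MeasureTheory
open scoped Real ENNReal

namespace Pool.Agent.H946R3.Hall

/-- The closed unit square centred at the origin. -/
def Sq : Set ℂ := {z | |z.re| ≤ 1 / 2 ∧ |z.im| ≤ 1 / 2}

lemma measurable_Sq : MeasurableSet Sq := by
  have h1 : IsClosed {z : ℂ | |z.re| ≤ 1 / 2} := isClosed_le (by fun_prop) continuous_const
  have h2 : IsClosed {z : ℂ | |z.im| ≤ 1 / 2} := isClosed_le (by fun_prop) continuous_const
  exact (h1.inter h2).measurableSet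

lemma W_sq_subset {σ : ℂ} {η : ℝ} (h0 : 0 ≤ η) (hσ : ‖σ - s0‖ ≤ η) :
    (fun p : ℂ × ℂ => ((1 + 3 * η)⁻¹)⁻¹ • p) ⁻¹' (W Sq s0) ⊆ W Sq σ := by
  rintro ⟨v, X⟩ hp
  have ht : (0 : ℝ) < 1 + 3 * η := by linarith
  rw [Set.mem_preimage, inv_inv] at hp
  set a : ℝ := 1 + 3 * η with ha
  obtain ⟨⟨h1, h1'⟩, ⟨h2, h2'⟩, ⟨h3, h3'⟩⟩ := hp
  simp only [Prod.smul_fst, Prod.smul_snd, Complex.add_re, Complex.add_im, Complex.real_smul,
    Complex.mul_re, Complex.mul_im, Complex.ofReal_re, Complex.ofReal_im, zero_mul, sub_zero,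
    add_zero] at h1 h1' h2 h2' h3 h3'
  rw [abs_le] at h1 h1' h2 h2' h3 h3'
  -- size of v
  have hv : a * ‖v‖ ≤ 3 / 2 := by
    have hsq : (a * ‖v‖) ^ 2 ≤ 2 := by
      rw [mul_pow, ← Complex.normSq_eq_norm_sq, Complex.normSq_apply]
      have e1 : |a * v.re| ≤ 1 := by rw [abs_le]; constructor <;> linarith
      have e2 : |a * v.im| ≤ 1 := by rw [abs_le]; constructor <;> linarith
      have e3 : (a * v.re) ^ 2 ≤ 1 := by rw [sq_le_one_iff_abs_le_one]; exact e1
      have e4 : (a * v.im) ^ 2 ≤ 1 := by rw [sq_le_one_iff_abs_le_one]; exact e2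
      nlinarith
    by_contra hc
    push Not at hc
    nlinarith
  have hd : ‖v * (σ - s0)‖ * a ≤ 3 / 2 * η := by
    rw [norm_mul]
    calc ‖v‖ * ‖σ - s0‖ * a = (a * ‖v‖) * ‖σ - s0‖ := by ring
      _ ≤ 3 / 2 * η := mul_le_mul hv hσ (norm_nonneg _) (by norm_num)
  have hre := (Complex.abs_re_le_norm (v * (σ - s0)))
  have him := (Complex.abs_im_le_norm (v * (σ - s0)))
  have hre2 : |(v * (σ - s0)).re| * a ≤ 3 / 2 * η :=
    (mul_le_mul_of_nonneg_right hre ht.le).trans hd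
  have him2 : |(v * (σ - s0)).im| * a ≤ 3 / 2 * η :=
    (mul_le_mul_of_nonneg_right him ht.le).trans hd
  have hre3 : |(v * (σ - s0)).re * a| ≤ 3 / 2 * η := by
    rw [abs_mul, abs_of_pos ht]; exact hre2
  have him3 : |(v * (σ - s0)).im * a| ≤ 3 / 2 * η := by
    rw [abs_mul, abs_of_pos ht]; exact him2
  rw [abs_le] at hre3 him3
  simp only [Complex.mul_re, Complex.mul_im, Complex.sub_re, Complex.sub_im] at hre3 him3
  have fin : ∀ x : ℝ, |a * x| ≤ a / 2 → |x| ≤ 1 / 2 := by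
    intro x hx
    rw [abs_mul, abs_of_pos ht] at hx
    have : a * |x| ≤ a * (1 / 2) := by linarith
    exact le_of_mul_le_mul_left this ht
  refine ⟨⟨?_, ?_⟩, ⟨?_, ?_⟩, ⟨?_, ?_⟩⟩
  · apply fin; rw [abs_le]; constructor <;> linarith
  · apply fin; rw [abs_le]; constructor <;> linarith
  · apply fin; rw [abs_le]; simp only [Complex.add_re]; constructor <;> linarith
  · apply fin; rw [abs_le]; simp only [Complex.add_im]; constructor <;> linarith
  · apply fin; rw [abs_le]; simp only [Complex.add_re, Complex.mul_re]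
    constructor <;> linarith
  · apply fin; rw [abs_le]; simp only [Complex.add_im, Complex.mul_im]
    constructor <;> linarith

lemma K_sq_near {σ : ℂ} {η : ℝ} (h0 : 0 ≤ η) (hσ : ‖σ - s0‖ ≤ η) :
    ENNReal.ofReal (((1 + 3 * η)⁻¹) ^ 6) * K Sq s0 ≤ K Sq σ := by
  unfold K
  rw [← K_scale_aux ((1 + 3 * η)⁻¹) (by positivity) (W Sq s0) (measurableSet_W measurable_Sq s0)]
  exact lintegral_mono_set (W_sq_subset h0 hσ)

/-- The width of `{0, x, y}`. -/
noncomputable def wid (x y : ℝ) : ℝ := max (max |x| |y|) |y - x|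

lemma wid_smul {r : ℝ} (hr : 0 ≤ r) (x y : ℝ) : wid (r * x) (r * y) = r * wid x y := by
  unfold wid
  rw [← mul_sub, abs_mul, abs_mul, abs_mul, abs_of_nonneg hr, mul_max_of_nonneg _ _ hr,
    mul_max_of_nonneg _ _ hr]

lemma interval_bound (x y : ℝ) : ∃ a, ∀ t ∈ Set.Icc a (a + (1 - wid x y)),
    |t| ≤ 1 / 2 ∧ |t + x| ≤ 1 / 2 ∧ |t + y| ≤ 1 / 2 := by
  refine ⟨-(1 / 2) - min 0 (min x y), ?_⟩
  rintro t ⟨h1, h2⟩
  have w1 : |x| ≤ wid x y := (le_max_left _ _).trans (le_max_left _ _)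
  have w2 : |y| ≤ wid x y := (le_max_right _ _).trans (le_max_left _ _)
  have w3 : |y - x| ≤ wid x y := le_max_right _ _
  rw [abs_le] at w1 w2 w3
  have m1 : min 0 (min x y) ≤ 0 := min_le_left _ _
  have m2 : min 0 (min x y) ≤ x := (min_le_right _ _).trans (min_le_left _ _)
  have m3 : min 0 (min x y) ≤ y := (min_le_right _ _).trans (min_le_right _ _)
  have m4 : min 0 (min x y) = 0 ∨ min 0 (min x y) = x ∨ min 0 (min x y) = y := by
    rcases min_choice 0 (min x y) with h | h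
    · exact Or.inl h
    · rcases min_choice x y with h' | h'
      · right; left; rw [h, h']
      · right; right; rw [h, h']
  refine ⟨?_, ?_, ?_⟩ <;> rw [abs_le] <;> constructor <;>
    rcases m4 with h | h | h <;> linarith

lemma section_ge (v : ℂ) (h1 : 0 ≤ 1 - wid v.re (v * s0).re) :
    ENNReal.ofReal ((1 - wid v.re (v * s0).re) * (1 - wid v.im (v * s0).im))
      ≤ volume {X : ℂ | (v, X) ∈ W Sq s0} := by
  obtain ⟨a, ha⟩ := interval_bound v.re (v * s0).re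
  obtain ⟨b, hb⟩ := interval_bound v.im (v * s0).im
  have hsub : Complex.measurableEquivRealProd ⁻¹'
      ((Set.Icc a (a + (1 - wid v.re (v * s0).re))) ×ˢ
        (Set.Icc b (b + (1 - wid v.im (v * s0).im)))) ⊆ {X : ℂ | (v, X) ∈ W Sq s0} := by
    rintro X ⟨hX1, hX2⟩
    obtain ⟨p1, p2, p3⟩ := ha _ hX1
    obtain ⟨q1, q2, q3⟩ := hb _ hX2
    exact ⟨⟨p1, q1⟩, ⟨p2, q2⟩, ⟨p3, q3⟩⟩
  refine le_trans ?_ (measure_mono hsub)
  rw [Complex.volume_preserving_equiv_real_prod.measure_preimage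
    (measurableSet_Icc.prod measurableSet_Icc).nullMeasurableSet, Measure.volume_eq_prod,
    Measure.prod_prod, Real.volume_Icc, Real.volume_Icc, ENNReal.ofReal_mul h1]
  apply le_of_eq
  congr 2 <;> ring

end Pool.Agent.H946R3.Hall
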